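import Pool.Agent.helper81.EY.IDef
import Pool.Agent.helper5.EY.Congr

set_option autoImplicit false
set_option linter.unusedSectionVars false

/-!
# MP_3fe32a, E-step: multiplicity of `P(x) + y² Q(y, x)` at `(0, s)`
-/

namespace EY

open MvPolynomial

namespace Ext

variable {κ : Type} [Fintype κ]

/-- the form `P(x) + y² Q(y, x)` -/
noncomputable abbrev ef (P : MvPolynomial κ ℂ) (Q : MvPolynomial (Option κ) ℂ) : MvPolynomial (Option κ) ℂ :=
  rename some P + X none ^ 2 * Q

lemma pderiv_some (P : MvPolynomial κ ℂ) (Q : MvPolynomial (Option κ) ℂ) (i : κ) :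
    pderiv (some i) (ef P Q) = rename some (pderiv i P) + X none ^ 2 * pderiv (some i) Q := by
  have h1 : pderiv (some i) (X none : MvPolynomial (Option κ) ℂ) = 0 :=
    pderiv_X_of_ne (by simp)
  rw [ef, map_add, pderiv_rename (Option.some_injective κ), Derivation.leibniz,
    Derivation.leibniz_pow, h1]
  simp only [smul_eq_mul]
  ring

lemma pderiv_none_rename (P : MvPolynomial κ ℂ) :
    pderiv none (rename some P : MvPolynomial (Option κ) ℂ) = 0 := by
  classical
  refine pderiv_eq_zero_of_notMem_vars ?_
  intro h
  obtain ⟨i, _, hi⟩ := Finset.mem_image.1 (vars_rename _ _ h)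
  exact Option.some_ne_none i hi

lemma pderiv_none' (P : MvPolynomial κ ℂ) (Q : MvPolynomial (Option κ) ℂ) :
    pderiv none (ef P Q) = X none * (2 * Q + X none * pderiv none Q) := by
  rw [ef, map_add, pderiv_none_rename, Derivation.leibniz, Derivation.leibniz_pow, pderiv_X_self]
  simp only [smul_eq_mul]
  rw [show (2 : ℕ) - 1 = 1 from rfl, pow_one, nsmul_eq_mul]
  push_cast
  ring

lemma minor_xx (P : MvPolynomial κ ℂ) (Q : MvPolynomial (Option κ) ℂ) (i j : κ) :
    X (some i) * pderiv (some j) (ef P Q) - X (some j) * pderiv (some i) (ef P Q) =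
      rename some (X i * pderiv j P - X j * pderiv i P) +
        X none * (X none * (X (some i) * pderiv (some j) Q - X (some j) * pderiv (some i) Q)) := by
  rw [pderiv_some, pderiv_some]
  simp only [map_sub, map_mul, rename_X]
  ring

/-- the second factor of the minors in the variables `x_i`, `y` -/
noncomputable def br (P : MvPolynomial κ ℂ) (Q : MvPolynomial (Option κ) ℂ) (i : κ) :
    MvPolynomial (Option κ) ℂ :=
  X (some i) * (2 * Q + X none * pderiv none Q) - pderiv (some i) (ef P Q)

lemma minor_xy (P : MvPolynomial κ ℂ) (Q : MvPolynomial (Option κ) ℂ) (i : κ) :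
    X (some i) * pderiv none (ef P Q) - X none * pderiv (some i) (ef P Q) = X none * br P Q i := by
  rw [pderiv_none', br]
  ring

end Ext

section ext

variable {κ : Type} [Fintype κ]

/-- the multiplicity of `P(x) + y² Q(y, x)` at a point `(0, s)`, `s` an eigenvector of `P` with multiplier `lam`,
`2 Q(0, s) ≠ lam`, is the multiplicity of `P` at `s` -/
theorem mul_ext' (P : MvPolynomial κ ℂ) (Q : MvPolynomial (Option κ) ℂ)
    (l s : κ → ℂ) (lam : ℂ) (hl : ∑ i, l i * s i = 1) (hs : ∀ i, eval s (pderiv i P) = lam * s i)
    (hQ : 2 * eval (fun o : Option κ => o.elim 0 s) Q ≠ lam) :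
    mulAt (chI (rename some P + X none ^ 2 * Q) (fun o : Option κ => o.elim 0 l))
      (fun o : Option κ => o.elim 0 s) = mulAt (chI P l) s := by
  classical
  change mulAt (chI (Ext.ef P Q) (fun o : Option κ => o.elim 0 l)) _ = _
  set v' : Option κ → ℂ := fun o : Option κ => o.elim 0 s with hv'
  have hvl : v' none = 0 := rfl
  have hvc : ∀ i : κ, v' (some i) = s i := fun i => rfl
  have hev : ∀ p : MvPolynomial κ ℂ, eval v' (rename some p) = eval s p := by
    intro p
    rw [eval_rename]
    rfl
  set I := chI (Ext.ef P Q) (fun o : Option κ => o.elim 0 l) with hI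
  set y : MvPolynomial (Option κ) ℂ := X none with hy
  have hlin : (∑ o : Option κ, C (o.elim 0 l) * X o : MvPolynomial (Option κ) ℂ) =
      rename some (∑ i, C (l i) * X i) := by
    rw [Fintype.sum_option, map_sum]
    change C 0 * X none + _ = _
    rw [C_0, zero_mul, zero_add]
    refine Finset.sum_congr rfl fun i _ => ?_
    rw [map_mul, rename_X, rename_C]
    rfl
  -- a coordinate with `s i ≠ 0`
  obtain ⟨i, hi⟩ : ∃ i, s i ≠ 0 := by
    by_contra h
    push Not at h
    rw [Finset.sum_eq_zero (fun i _ => by rw [h i, mul_zero])] at hl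
    exact zero_ne_one hl
  have hyI : y * Ext.br P Q i ∈ I := by
    rw [hI, chI]
    exact Ideal.mem_sup_left (Ideal.subset_span ⟨some i, none, (Ext.minor_xy P Q i).symm⟩)
  have hunit : Ext.br P Q i ∈ (pt v').primeCompl := by
    intro h
    have h2 : eval v' (Ext.br P Q i) = 0 := h
    rw [Ext.br, Ext.pderiv_some] at h2
    simp only [map_sub, map_mul, map_add, map_pow, eval_X, hvl, hev, map_ofNat, hvc, hs] at h2
    have h3 : s i * (2 * eval v' Q - lam) = 0 := by linear_combination h2
    rcases mul_eq_zero.1 h3 with h4 | h4
    · exact hi h4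
    · exact hQ (sub_eq_zero.1 h4)
  have hmap : (I ⊔ Ideal.span {y}).map (algebraMap (MvPolynomial (Option κ) ℂ)
      (Localization.AtPrime (pt v'))) = I.map (algebraMap (MvPolynomial (Option κ) ℂ)
      (Localization.AtPrime (pt v'))) := by
    rw [Ideal.map_sup, sup_eq_left, Ideal.map_le_iff_le_comap, Ideal.span_singleton_le_iff_mem,
      Ideal.mem_comap, IsLocalization.algebraMap_mem_map_algebraMap_iff (pt v').primeCompl]
    exact ⟨Ext.br P Q i, hunit, by rw [mul_comm]; exact hyI⟩
  have h1 : mulAt I v' = mulAt (I ⊔ Ideal.span {y}) v' := by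
    rw [mulAt, mulAt, hmap]
  rw [h1]
  symm
  let π : MvPolynomial (Option κ) ℂ →ₐ[ℂ] MvPolynomial κ ℂ :=
    aeval (fun o : Option κ => o.elim 0 (fun i => (X i : MvPolynomial κ ℂ)))
  have hπl : π y = 0 := by
    change aeval _ (X none) = _
    rw [aeval_X]
    rfl
  have hπc : ∀ i : κ, π (X (some i)) = X i := by
    intro i
    change aeval _ (X (some i)) = _
    rw [aeval_X]
    rfl
  have hπu : ∀ x : MvPolynomial κ ℂ, π (rename some x) = x := by
    intro x
    change aeval _ (rename some x) = _
    rw [aeval_rename]
    exact aeval_X_left_apply x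
  have hsub : ∀ z : MvPolynomial (Option κ) ℂ, z - rename some (π z) ∈ Ideal.span {y} := by
    intro z
    induction z using MvPolynomial.induction_on with
    | C c =>
      have h2 : (rename some (π (C c)) : MvPolynomial (Option κ) ℂ) = C c := by
        rw [← algebraMap_eq, AlgHom.commutes, AlgHom.commutes]
      rw [h2, sub_self]
      exact Ideal.zero_mem _
    | add a b ha hb =>
      rw [map_add, map_add]
      have h2 : a + b - (rename some (π a) + rename some (π b)) =
          (a - rename some (π a)) + (b - rename some (π b)) := by ring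
      rw [h2]
      exact Ideal.add_mem _ ha hb
    | mul_X a j ha =>
      have hX : (X j : MvPolynomial (Option κ) ℂ) - rename some (π (X j)) ∈ Ideal.span {y} := by
        cases j with
        | none =>
          rw [← hy, hπl, map_zero, sub_zero]
          exact Ideal.mem_span_singleton_self y
        | some j =>
          rw [hπc, rename_X, sub_self]
          exact Ideal.zero_mem _
      rw [map_mul, map_mul]
      have h2 : a * X j - rename some (π a) * rename some (π (X j)) =
          (a - rename some (π a)) * X j + rename some (π a) * (X j - rename some (π (X j))) := by ring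
      rw [h2]
      exact Ideal.add_mem _ (Ideal.mul_mem_right _ _ ha) (Ideal.mul_mem_left _ _ hX)
  have hπI : ∀ z ∈ I ⊔ Ideal.span {y}, π z ∈ chI P l := by
    have h2 : I ⊔ Ideal.span {y} ≤ (chI P l).comap π := by
      refine sup_le (sup_le ?_ ?_) ?_
      · rw [Ideal.span_le]
        rintro _ ⟨a, b, rfl⟩
        have hxx : ∀ a b : κ, π (X (some a) * pderiv (some b) (Ext.ef P Q) -
            X (some b) * pderiv (some a) (Ext.ef P Q)) ∈ chI P l := by
          intro a b
          rw [Ext.minor_xx, map_add, hπu, map_mul, hπl, zero_mul, add_zero]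
          exact Ideal.mem_sup_left (Ideal.subset_span ⟨a, b, rfl⟩)
        have hxy : ∀ a : κ, π (X (some a) * pderiv none (Ext.ef P Q) -
            X none * pderiv (some a) (Ext.ef P Q)) ∈ chI P l := by
          intro a
          rw [Ext.minor_xy, map_mul, hπl, zero_mul]
          exact Ideal.zero_mem _
        change π _ ∈ chI P l
        cases a with
        | none =>
          cases b with
          | none =>
            rw [sub_self, map_zero]
            exact Ideal.zero_mem _
          | some b =>
            rw [← neg_sub, map_neg]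
            exact Ideal.neg_mem_iff _ |>.2 (hxy b)
        | some a =>
          cases b with
          | none => exact hxy a
          | some b => exact hxx a b
      · rw [Ideal.span_singleton_le_iff_mem, Ideal.mem_comap, hlin, map_sub, map_one, hπu]
        exact Ideal.mem_sup_right (Ideal.mem_span_singleton_self _)
      · rw [Ideal.span_singleton_le_iff_mem, Ideal.mem_comap, hπl]
        exact Ideal.zero_mem _
    exact fun z hz => h2 hz
  refine mulAt_congr (chI P l) (I ⊔ Ideal.span {y}) s v' (rename some) ?_ ?_ ?_ ?_
  · intro z
    exact ⟨π z, Ideal.mem_sup_right (hsub z)⟩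
  · intro x
    constructor
    · intro hx
      have := hπI _ hx
      rwa [hπu] at this
    · intro hx
      have h2 : chI P l ≤ (I ⊔ Ideal.span {y}).comap (rename some : MvPolynomial κ ℂ →ₐ[ℂ] _) := by
        refine sup_le ?_ ?_
        · rw [Ideal.span_le]
          rintro _ ⟨a, b, rfl⟩
          change rename some _ ∈ I ⊔ Ideal.span {y}
          have h3 := Ext.minor_xx P Q a b
          have h4 : (rename some (X a * pderiv b P - X b * pderiv a P) : MvPolynomial (Option κ) ℂ) =
              (X (some a) * pderiv (some b) (Ext.ef P Q) -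
                X (some b) * pderiv (some a) (Ext.ef P Q)) -
              y * (y * (X (some a) * pderiv (some b) Q - X (some b) * pderiv (some a) Q)) := by
            rw [h3]
            ring
          rw [h4]
          refine Ideal.sub_mem _ (Ideal.mem_sup_left (Ideal.mem_sup_left
            (Ideal.subset_span ⟨some a, some b, rfl⟩)))
            (Ideal.mem_sup_right (Ideal.mul_mem_right _ _ (Ideal.mem_span_singleton_self y)))
        · rw [Ideal.span_singleton_le_iff_mem, Ideal.mem_comap, map_sub, map_one, ← hlin]
          exact Ideal.mem_sup_left (Ideal.mem_sup_right (Ideal.mem_span_singleton_self _))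
      exact h2 hx
  · intro x
    exact hev x
  · intro z hz
    have h2 : I ⊔ Ideal.span {y} ≤ RingHom.ker (eval v') := by
      have hP : ∀ a b : κ, s a * eval s (pderiv b P) - s b * eval s (pderiv a P) = 0 := by
        intro a b
        rw [hs, hs]
        ring
      have hxx : ∀ a b : κ, eval v' (X (some a) * pderiv (some b) (Ext.ef P Q) -
          X (some b) * pderiv (some a) (Ext.ef P Q)) = 0 := by
        intro a b
        rw [Ext.minor_xx, map_add, map_mul, eval_X, hvl, zero_mul, add_zero, hev, map_sub, map_mul,
          map_mul, eval_X, eval_X]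
        exact hP a b
      have hxy : ∀ a : κ, eval v' (X (some a) * pderiv none (Ext.ef P Q) -
          X none * pderiv (some a) (Ext.ef P Q)) = 0 := by
        intro a
        rw [Ext.minor_xy, map_mul, eval_X, hvl, zero_mul]
      refine sup_le (sup_le ?_ ?_) ?_
      · rw [Ideal.span_le]
        rintro _ ⟨a, b, rfl⟩
        change eval v' _ = 0
        cases a with
        | none =>
          cases b with
          | none => rw [sub_self, map_zero]
          | some b =>
            rw [← neg_sub, map_neg, neg_eq_zero]
            exact hxy b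
        | some a =>
          cases b with
          | none => exact hxy a
          | some b => exact hxx a b
      · rw [Ideal.span_singleton_le_iff_mem, RingHom.mem_ker, map_sub, map_one, hlin, hev, map_sum,
          sub_eq_zero, ← hl]
        refine Finset.sum_congr rfl fun i _ => ?_
        rw [map_mul, eval_C, eval_X]
      · rw [Ideal.span_singleton_le_iff_mem, RingHom.mem_ker, hy, eval_X, hvl]
    exact h2 hz

/-- the form of the stub of `helper81/EY/YForm.lean` -/
theorem mul_ext_h60 {d : ℕ} (P : MvPolynomial κ ℂ) (Q : MvPolynomial (Option κ) ℂ) (_hP : P.IsHomogeneous d)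
    (l s : κ → ℂ) (lam : ℂ) (hl : ∑ i, l i * s i = 1) (hs : ∀ i, eval s (pderiv i P) = lam * s i)
    (hQ : 2 * eval (fun o : Option κ => o.elim 0 s) Q ≠ lam) :
    mulAt (chI (rename some P + X none ^ 2 * Q) (fun o : Option κ => o.elim 0 l))
      (fun o : Option κ => o.elim 0 s) = mulAt (chI P l) s :=
  mul_ext' P Q l s lam hl hs hQ

end ext

end EY
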