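import Pool.Agent.helper5.EY.Comp
import Pool.Agent.helper35.EY.FinJ

set_option autoImplicit false
set_option linter.unusedSectionVars false

/-!
# MP_3fe32a, module M7: the step L

`f = P(x) + θ b(x)^(q-1) y²`, `b` a linear form without zero at the eigenpoints of `P`, `θ` generic. The point
`(v, 0)` has the same multiplicity in `X_f` as `v` in `X_P`; the eigenvectors of `f` are those of `P` (`y = 0`)
and the zeros of the homogeneous system `f_i = 2 θ b^(q-1) x_i`, which has no nonzero zero on `y = 0`.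
-/

namespace EY

open MvPolynomial LinearAlgebra.Projectivization

namespace LS

variable {N : ℕ}

lemma eval_linForm (l x : Fin N → ℂ) : eval x (linForm l) = ∑ i, l i * x i := by
  rw [linForm, map_sum]
  refine Finset.sum_congr rfl fun i _ => ?_
  rw [map_mul, eval_C, eval_X]

/-- a linear form without zero in a finite set of nonzero vectors -/
lemma exists_lin {T : Set (Fin N → ℂ)} (hT : T.Finite) (h0 : ∀ t ∈ T, t ≠ 0) :
    ∃ b : Fin N → ℂ, ∀ t ∈ T, eval t (linForm b) ≠ 0 := by
  have := hT.to_subtype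
  have h1 := Module.Dual.exists_forall_ne_zero_of_forall_exists (K := ℂ) (M := Fin N → ℂ)
    (fun t : T => (Fintype.linearCombination ℂ (M := ℂ) (fun i => t.1 i) :
      (Fin N → ℂ) →ₗ[ℂ] ℂ)) (by
      rintro ⟨t, ht⟩
      obtain ⟨i, hi⟩ := Function.ne_iff.1 (h0 t ht)
      refine ⟨Pi.single i 1, ?_⟩
      rw [Fintype.linearCombination_apply]
      rw [Finset.sum_eq_single i]
      · simpa using hi
      · intro j _ hj
        simp [Pi.single_eq_of_ne hj]
      · intro h
        exact absurd (Finset.mem_univ i) h)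
  obtain ⟨b, hb⟩ := h1
  refine ⟨b, fun t ht => ?_⟩
  have h2 := hb ⟨t, ht⟩
  rw [Fintype.linearCombination_apply] at h2
  rw [eval_linForm]
  exact h2

variable {q : ℕ}

/-- `Rep` of eigenpoints: every eigenvector is a multiple of a representative -/
lemma exists_rep {P : MvPolynomial (Fin N) ℂ} (hP : P.IsHomogeneous (q + 1)) {x : Fin N → ℂ}
    (hx : IsEigenvector P x) : ∃ p ∈ eigenpoints P, ∃ c : ℂ, c ≠ 0 ∧ x = c • p.rep := by
  refine ⟨_, mem_eigenpoints_mk hP hx, ?_⟩
  obtain ⟨c, hc⟩ := (Projectivization.mk_eq_mk_iff' ℂ x (Projectivization.mk ℂ x hx.1).rep hx.1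
    (Projectivization.mk ℂ x hx.1).rep_nonzero).mp (by rw [Projectivization.mk_rep])
  refine ⟨c, ?_, hc.symm⟩
  rintro rfl
  rw [zero_smul] at hc
  exact hx.1 hc.symm

lemma exists_b {P : MvPolynomial (Fin N) ℂ} (hP : P.IsHomogeneous (q + 1)) (hfin : (eigenpoints P).Finite) :
    ∃ b : Fin N → ℂ, ∀ x, IsEigenvector P x → eval x (linForm b) ≠ 0 := by
  obtain ⟨b, hb⟩ := exists_lin (hfin.image fun p => p.rep) (by
    rintro _ ⟨p, _, rfl⟩
    exact p.rep_nonzero)
  refine ⟨b, fun x hx => ?_⟩
  obtain ⟨p, hp, c, hc, rfl⟩ := exists_rep hP hx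
  rw [eval_linForm_smul]
  exact mul_ne_zero hc (hb _ ⟨p, hp, rfl⟩)

/-- genericity of `θ` -/
lemma exists_theta {P : MvPolynomial (Fin N) ℂ} (hP : P.IsHomogeneous (q + 1)) (hfin : (eigenpoints P).Finite)
    (hq : 1 ≤ q) {b : Fin N → ℂ} (hb : ∀ x, IsEigenvector P x → eval x (linForm b) ≠ 0) :
    ∃ θ : ℂ, ∀ x, IsEigenvector P x →
      ∃ i, eval x (pderiv i P) ≠ 2 * θ * eval x (linForm b) ^ (q - 1) * x i := by
  -- for a representative `t` at most one bad `θ`
  have h1 : ∀ t : Fin N → ℂ, IsEigenvector P t → ∃ θ₀ : ℂ, ∀ θ ≠ θ₀,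
      ∃ i, eval t (pderiv i P) ≠ 2 * θ * eval t (linForm b) ^ (q - 1) * t i := by
    intro t ht
    obtain ⟨i, hi⟩ := Function.ne_iff.1 ht.1
    have hi' : t i ≠ 0 := hi
    have hb' := pow_ne_zero (q - 1) (hb t ht)
    refine ⟨eval t (pderiv i P) / (2 * eval t (linForm b) ^ (q - 1) * t i), fun θ hθ => ⟨i, ?_⟩⟩
    intro h
    apply hθ
    rw [h]
    field_simp
  choose! F hF using h1
  obtain ⟨θ, hθ⟩ := ((hfin.image fun p => F p.rep).infinite_compl).nonempty
  refine ⟨θ, fun x hx => ?_⟩
  obtain ⟨p, hp, c, hc, rfl⟩ := exists_rep hP hx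
  obtain ⟨i, hi⟩ := hF p.rep hp θ (fun h => hθ ⟨p, hp, h.symm⟩)
  refine ⟨i, fun h => hi ?_⟩
  have h2 := eval_smul_hom (hP.pderiv (i := i)) c p.rep
  rw [h, eval_linForm_smul, Pi.smul_apply, smul_eq_mul, Nat.add_sub_cancel] at h2
  have h3 : c ^ q = c ^ (q - 1) * c := by rw [← pow_succ]; congr 1; omega
  rw [h3, mul_pow] at h2
  have h4 : c ^ (q - 1) * c ≠ 0 := mul_ne_zero (pow_ne_zero _ hc) hc
  apply mul_left_cancel₀ h4
  rw [← h2]
  ring

/-- the variables `x` in `x, y` -/
noncomputable abbrev up : MvPolynomial (Fin N) ℂ →ₐ[ℂ] MvPolynomial (Fin (N + 1)) ℂ :=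
  rename Fin.castSucc

lemma eval_up (p : MvPolynomial (Fin N) ℂ) (x : Fin (N + 1) → ℂ) :
    eval x (up p) = eval (fun i => x i.castSucc) p := by
  rw [up, eval_rename]
  rfl

lemma pderiv_up (p : MvPolynomial (Fin N) ℂ) (i : Fin N) :
    pderiv i.castSucc (up p) = up (pderiv i p) := by
  rw [up, pderiv_rename (Fin.castSucc_injective N)]

lemma pderiv_up_last (p : MvPolynomial (Fin N) ℂ) : pderiv (Fin.last N) (up p) = 0 := by
  refine pderiv_eq_zero_of_notMem_vars ?_
  intro h
  obtain ⟨i, _, hi⟩ := Finset.mem_image.1 (vars_rename _ _ h)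
  exact (Fin.castSucc_lt_last i).ne hi

/-- the form `P + H y²` -/
noncomputable def lf (P H : MvPolynomial (Fin N) ℂ) : MvPolynomial (Fin (N + 1)) ℂ :=
  up P + up H * X (Fin.last N) ^ 2

lemma pderiv_lf (P H : MvPolynomial (Fin N) ℂ) (i : Fin N) :
    pderiv i.castSucc (lf P H) = up (pderiv i P) + up (pderiv i H) * X (Fin.last N) ^ 2 := by
  have h1 : pderiv i.castSucc (X (Fin.last N) : MvPolynomial (Fin (N + 1)) ℂ) = 0 :=
    pderiv_X_of_ne (Fin.castSucc_lt_last i).ne'
  rw [lf, map_add, pderiv_up, Derivation.leibniz, Derivation.leibniz_pow, h1, pderiv_up]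
  simp only [smul_eq_mul]
  ring

lemma pderiv_lf_last (P H : MvPolynomial (Fin N) ℂ) :
    pderiv (Fin.last N) (lf P H) = 2 * up H * X (Fin.last N) := by
  rw [lf, map_add, pderiv_up_last, Derivation.leibniz, Derivation.leibniz_pow, pderiv_up_last,
    pderiv_X_self]
  simp only [smul_eq_mul, zero_add]
  rw [show (2 : ℕ) - 1 = 1 from rfl, pow_one, nsmul_eq_mul]
  push_cast
  ring

lemma lf_hom {P H : MvPolynomial (Fin N) ℂ} (hq : 1 ≤ q) (hP : P.IsHomogeneous (q + 1))
    (hH : H.IsHomogeneous (q - 1)) : (lf P H).IsHomogeneous (q + 1) := by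
  refine hP.rename_isHomogeneous.add ?_
  have h1 := hH.rename_isHomogeneous (f := Fin.castSucc) |>.mul
    ((isHomogeneous_X ℂ (Fin.last N)).pow 2)
  have h2 : q - 1 + 1 * 2 = q + 1 := by omega
  rwa [h2] at h1

/-- minors of `f` in the variables `x` -/
lemma minor_xx (P H : MvPolynomial (Fin N) ℂ) (i j : Fin N) :
    X i.castSucc * pderiv j.castSucc (lf P H) - X j.castSucc * pderiv i.castSucc (lf P H) =
      up (X i * pderiv j P - X j * pderiv i P) +
        X (Fin.last N) * (X (Fin.last N) * up (X i * pderiv j H - X j * pderiv i H)) := by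
  rw [pderiv_lf, pderiv_lf]
  simp only [up, map_sub, map_mul, rename_X]
  ring

/-- the second factor of the minors of `f` in the variables `x_i`, `y` -/
noncomputable def br (P H : MvPolynomial (Fin N) ℂ) (i : Fin N) : MvPolynomial (Fin (N + 1)) ℂ :=
  X i.castSucc * (2 * up H) - pderiv i.castSucc (lf P H)

lemma minor_xy (P H : MvPolynomial (Fin N) ℂ) (i : Fin N) :
    X i.castSucc * pderiv (Fin.last N) (lf P H) - X (Fin.last N) * pderiv i.castSucc (lf P H) =
      X (Fin.last N) * br P H i := by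
  rw [pderiv_lf_last, br]
  ring

/-- eigenvectors with `y = 0` -/
lemma isEig_zero {P H : MvPolynomial (Fin N) ℂ} {x : Fin (N + 1) → ℂ} (hx : IsEigenvector (lf P H) x)
    (hy : x (Fin.last N) = 0) : IsEigenvector P (fun i => x i.castSucc) := by
  refine ⟨?_, fun i j => ?_⟩
  · intro h
    apply hx.1
    funext i
    refine Fin.lastCases hy (fun i => ?_) i
    exact congrFun h i
  · have h1 := hx.2 i.castSucc j.castSucc
    have h2 := congrArg (eval x) (minor_xx P H i j)
    rw [map_sub, map_mul, map_mul, eval_X, eval_X, h1, map_add, map_mul, eval_X, hy, zero_mul,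
      add_zero, eval_up, map_sub, map_mul, map_mul, eval_X, eval_X] at h2
    exact h2.symm

/-- eigenvectors of `P` give eigenvectors of `f` -/
lemma isEig_snoc {P H : MvPolynomial (Fin N) ℂ} {v : Fin N → ℂ} (hv : IsEigenvector P v) :
    IsEigenvector (lf P H) (Fin.snoc v 0 : Fin (N + 1) → ℂ) := by
  have hl : (Fin.snoc v 0 : Fin (N + 1) → ℂ) (Fin.last N) = 0 := Fin.snoc_last _ _
  have hc : (fun i : Fin N => (Fin.snoc v 0 : Fin (N + 1) → ℂ) i.castSucc) = v := by
    funext i
    exact Fin.snoc_castSucc _ _ _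
  refine ⟨?_, ?_⟩
  · intro h
    apply hv.1
    rw [← hc, h]
    rfl
  · have hxx : ∀ i j : Fin N, (Fin.snoc v 0 : Fin (N + 1) → ℂ) i.castSucc *
        eval (Fin.snoc v 0 : Fin (N + 1) → ℂ) (pderiv j.castSucc (lf P H)) -
        (Fin.snoc v 0 : Fin (N + 1) → ℂ) j.castSucc *
        eval (Fin.snoc v 0 : Fin (N + 1) → ℂ) (pderiv i.castSucc (lf P H)) = 0 := by
      intro i j
      have h2 := congrArg (eval (Fin.snoc v 0 : Fin (N + 1) → ℂ)) (minor_xx P H i j)
      rw [map_sub, map_mul, map_mul, eval_X, eval_X, map_add, map_mul, eval_X, hl, zero_mul,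
        add_zero, eval_up, hc, map_sub, map_mul, map_mul, eval_X, eval_X, hv.2 i j] at h2
      exact h2
    have hxy : ∀ i : Fin N, (Fin.snoc v 0 : Fin (N + 1) → ℂ) i.castSucc *
        eval (Fin.snoc v 0 : Fin (N + 1) → ℂ) (pderiv (Fin.last N) (lf P H)) -
        (Fin.snoc v 0 : Fin (N + 1) → ℂ) (Fin.last N) *
        eval (Fin.snoc v 0 : Fin (N + 1) → ℂ) (pderiv i.castSucc (lf P H)) = 0 := by
      intro i
      rw [pderiv_lf_last, map_mul, eval_X, hl, mul_zero, mul_zero, zero_mul, sub_zero]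
    intro i j
    refine Fin.lastCases ?_ (fun i => ?_) i
    · refine Fin.lastCases ?_ (fun j => ?_) j
      · exact sub_self _
      · rw [← neg_sub, neg_eq_zero]
        exact hxy j
    · refine Fin.lastCases ?_ (fun j => ?_) j
      · exact hxy i
      · exact hxx i j

/-- the eigenpoints of `f` -/
lemma lf_finite {P H : MvPolynomial (Fin N) ℂ} (hq : 1 ≤ q) (hP : P.IsHomogeneous (q + 1))
    (hH : H.IsHomogeneous (q - 1)) (hfin : (eigenpoints P).Finite)
    (hgen : ∀ x, IsEigenvector P x → ∃ i, eval x (pderiv i P) ≠ 2 * eval x H * x i) :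
    (eigenpoints (lf P H)).Finite := by
  have hf := lf_hom hq hP hH
  have hbr : ∀ i, (br P H i).IsHomogeneous q := by
    intro i
    refine IsHomogeneous.sub ?_ ?_
    · have h1 := (isHomogeneous_X ℂ (i.castSucc : Fin (N + 1))).mul
        (((isHomogeneous_C (Fin (N + 1)) (2 : ℂ))).mul (hH.rename_isHomogeneous (f := Fin.castSucc)))
      have h2 : 1 + (0 + (q - 1)) = q := by omega
      rw [h2] at h1
      have h3 : (C (2 : ℂ) : MvPolynomial (Fin (N + 1)) ℂ) = 2 := map_ofNat C 2
      rw [h3] at h1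
      exact h1
    · have h1 := hf.pderiv (i := i.castSucc)
      rwa [Nat.add_sub_cancel] at h1
  have h1 := finite_proj_of_hyperplane (Set.range (br P H)) (by
      rintro _ ⟨i, rfl⟩
      exact ⟨q, hbr i⟩) one_pos (isHomogeneous_X ℂ (Fin.last N)) (by
      intro v hv hvl
      rw [eval_X] at hvl
      have h2 : ∀ i : Fin N, eval (fun j => v j.castSucc) (pderiv i P) =
          2 * eval (fun j => v j.castSucc) H * v i.castSucc := by
        intro i
        have h3 := hv _ ⟨i, rfl⟩
        rw [br, pderiv_lf] at h3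
        simp only [map_sub, map_mul, map_add, map_pow, eval_X, hvl, eval_up, map_ofNat] at h3
        linear_combination -h3
      by_contra hne
      have h4 : IsEigenvector P (fun j => v j.castSucc) := by
        refine ⟨?_, fun i j => ?_⟩
        · intro h
          apply hne
          funext i
          exact Fin.lastCases hvl (fun i => congrFun h i) i
        · rw [h2, h2]
          ring
      obtain ⟨i, hi⟩ := hgen _ h4
      exact hi (h2 i))
  have hne : ∀ Q : ℙ ℂ (Fin N → ℂ), (Fin.snoc Q.rep 0 : Fin (N + 1) → ℂ) ≠ 0 := by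
    intro Q h
    apply Q.rep_nonzero
    funext i
    have := congrFun h i.castSucc
    rwa [Fin.snoc_castSucc] at this
  refine (h1.union (hfin.image fun Q => Projectivization.mk ℂ
    (Fin.snoc Q.rep 0 : Fin (N + 1) → ℂ) (hne Q))).subset ?_
  intro p hp
  by_cases hy : p.rep (Fin.last N) = 0
  · right
    have h2 := isEig_zero hp hy
    obtain ⟨Q, hQ, c, hc, hcx⟩ := exists_rep hP h2
    refine ⟨Q, hQ, ?_⟩
    conv_rhs => rw [← p.mk_rep]
    rw [Projectivization.mk_eq_mk_iff']
    refine ⟨c⁻¹, ?_⟩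
    funext i
    refine Fin.lastCases ?_ (fun i => ?_) i
    · rw [Pi.smul_apply, hy, smul_zero, Fin.snoc_last]
    · rw [Fin.snoc_castSucc, Pi.smul_apply]
      have h3 : p.rep i.castSucc = c * Q.rep i := congrFun hcx i
      rw [h3, smul_eq_mul, ← mul_assoc, inv_mul_cancel₀ hc, one_mul]
  · left
    rintro _ ⟨i, rfl⟩
    have h2 := hp.2 i.castSucc (Fin.last N)
    have h3 := congrArg (eval p.rep) (minor_xy P H i)
    rw [map_sub, map_mul, map_mul, eval_X, eval_X, h2, map_mul, eval_X] at h3
    exact (mul_eq_zero.1 h3.symm).resolve_left hy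

/-- the multiplicity is unchanged -/
lemma mulAt_lf {P H : MvPolynomial (Fin N) ℂ} {l v : Fin N → ℂ} (hv : IsEigenvector P v)
    (hl : eval v (linForm l) = 1) (hgen : ∃ i, eval v (pderiv i P) ≠ 2 * eval v H * v i) :
    mulAt (chartIdeal (lf P H) (Fin.snoc l 0)) (Fin.snoc v 0 : Fin (N + 1) → ℂ) =
      mulAt (chartIdeal P l) v := by
  classical
  set v' : Fin (N + 1) → ℂ := Fin.snoc v 0 with hv'
  have hvl : v' (Fin.last N) = 0 := Fin.snoc_last _ _
  have hvc : ∀ i : Fin N, v' i.castSucc = v i := fun i => Fin.snoc_castSucc _ _ _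
  have hvc' : (fun i : Fin N => v' i.castSucc) = v := funext hvc
  set I := chartIdeal (lf P H) (Fin.snoc l 0 : Fin (N + 1) → ℂ) with hI
  set y : MvPolynomial (Fin (N + 1)) ℂ := X (Fin.last N) with hy
  have hlin : linForm (Fin.snoc l 0 : Fin (N + 1) → ℂ) = up (linForm l) := by
    rw [linForm, linForm, Fin.sum_univ_castSucc, Fin.snoc_last, C_0, zero_mul, add_zero, map_sum]
    refine Finset.sum_congr rfl fun i _ => ?_
    rw [Fin.snoc_castSucc, map_mul, rename_X, rename_C]
  -- `y` is in the local ideal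
  obtain ⟨i, hi⟩ := hgen
  have hyI : y * br P H i ∈ I := by
    rw [hI, chartIdeal]
    refine Ideal.mem_sup_left (Ideal.subset_span ⟨i.castSucc, Fin.last N, ?_⟩)
    exact (minor_xy P H i).symm
  have hunit : br P H i ∈ (pt v').primeCompl := by
    intro h
    have h2 : eval v' (br P H i) = 0 := h
    rw [br, pderiv_lf] at h2
    simp only [map_sub, map_mul, map_add, map_pow, eval_X, hvl, eval_up, map_ofNat, hvc] at h2
    apply hi
    linear_combination -h2
  have hmap : (I ⊔ Ideal.span {y}).map (algebraMap (MvPolynomial (Fin (N + 1)) ℂ)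
      (Localization.AtPrime (pt v'))) = I.map (algebraMap (MvPolynomial (Fin (N + 1)) ℂ)
      (Localization.AtPrime (pt v'))) := by
    rw [Ideal.map_sup, sup_eq_left, Ideal.map_le_iff_le_comap, Ideal.span_singleton_le_iff_mem,
      Ideal.mem_comap, IsLocalization.algebraMap_mem_map_algebraMap_iff (pt v').primeCompl]
    exact ⟨br P H i, hunit, by rw [mul_comm]; exact hyI⟩
  have h1 : mulAt I v' = mulAt (I ⊔ Ideal.span {y}) v' := by
    rw [mulAt, mulAt, hmap]
  rw [h1]
  symm
  -- the projection `y ↦ 0`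
  let π : MvPolynomial (Fin (N + 1)) ℂ →ₐ[ℂ] MvPolynomial (Fin N) ℂ :=
    aeval (Fin.snoc (fun i : Fin N => (X i : MvPolynomial (Fin N) ℂ)) 0 : Fin (N + 1) → _)
  have hπl : π y = 0 := by
    change aeval _ (X (Fin.last N)) = _
    rw [aeval_X, Fin.snoc_last]
  have hπc : ∀ i : Fin N, π (X i.castSucc) = X i := by
    intro i
    change aeval _ (X i.castSucc) = _
    rw [aeval_X, Fin.snoc_castSucc]
  have hπu : ∀ x : MvPolynomial (Fin N) ℂ, π (up x) = x := by
    intro x
    change aeval _ (rename Fin.castSucc x) = _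
    rw [aeval_rename]
    have h2 : ((Fin.snoc (fun i : Fin N => (X i : MvPolynomial (Fin N) ℂ)) 0 :
        Fin (N + 1) → MvPolynomial (Fin N) ℂ) ∘ Fin.castSucc) = X := by
      funext i
      exact Fin.snoc_castSucc _ _ _
    rw [h2, aeval_X_left_apply]
  have hsub : ∀ z : MvPolynomial (Fin (N + 1)) ℂ, z - up (π z) ∈ Ideal.span {y} := by
    intro z
    induction z using MvPolynomial.induction_on with
    | C c =>
      have h2 : up (π (C c)) = (C c : MvPolynomial (Fin (N + 1)) ℂ) := by
        rw [← algebraMap_eq, AlgHom.commutes, AlgHom.commutes]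
      rw [h2, sub_self]
      exact Ideal.zero_mem _
    | add a b ha hb =>
      rw [map_add, map_add]
      have h2 : a + b - (up (π a) + up (π b)) = (a - up (π a)) + (b - up (π b)) := by ring
      rw [h2]
      exact Ideal.add_mem _ ha hb
    | mul_X a j ha =>
      have hX : (X j : MvPolynomial (Fin (N + 1)) ℂ) - up (π (X j)) ∈ Ideal.span {y} := by
        refine Fin.lastCases ?_ (fun j => ?_) j
        · rw [← hy, hπl, map_zero, sub_zero]
          exact Ideal.mem_span_singleton_self y
        · rw [hπc, rename_X, sub_self]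
          exact Ideal.zero_mem _
      rw [map_mul, map_mul]
      have h2 : a * X j - up (π a) * up (π (X j)) =
          (a - up (π a)) * X j + up (π a) * (X j - up (π (X j))) := by ring
      rw [h2]
      exact Ideal.add_mem _ (Ideal.mul_mem_right _ _ ha) (Ideal.mul_mem_left _ _ hX)
  have hπI : ∀ z ∈ I ⊔ Ideal.span {y}, π z ∈ chartIdeal P l := by
    have h2 : I ⊔ Ideal.span {y} ≤ (chartIdeal P l).comap π := by
      refine sup_le (sup_le ?_ ?_) ?_
      · rw [eigIdeal, Ideal.span_le]
        rintro _ ⟨a, b, rfl⟩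
        have hxx : ∀ a b : Fin N, π (X a.castSucc * pderiv b.castSucc (lf P H) -
            X b.castSucc * pderiv a.castSucc (lf P H)) ∈ chartIdeal P l := by
          intro a b
          rw [minor_xx, map_add, hπu, map_mul, hπl, zero_mul, add_zero]
          exact Ideal.mem_sup_left (Ideal.subset_span ⟨a, b, rfl⟩)
        have hxy : ∀ a : Fin N, π (X a.castSucc * pderiv (Fin.last N) (lf P H) -
            X (Fin.last N) * pderiv a.castSucc (lf P H)) ∈ chartIdeal P l := by
          intro a
          rw [minor_xy, map_mul, hπl, zero_mul]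
          exact Ideal.zero_mem _
        change π _ ∈ chartIdeal P l
        refine Fin.lastCases ?_ (fun a => ?_) a
        · refine Fin.lastCases ?_ (fun b => ?_) b
          · rw [sub_self, map_zero]
            exact Ideal.zero_mem _
          · rw [← neg_sub, map_neg]
            exact Ideal.neg_mem_iff _ |>.2 (hxy b)
        · refine Fin.lastCases ?_ (fun b => ?_) b
          · exact hxy a
          · exact hxx a b
      · rw [Ideal.span_singleton_le_iff_mem, Ideal.mem_comap, hlin, map_sub, map_one, hπu]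
        exact Ideal.mem_sup_right (Ideal.mem_span_singleton_self _)
      · rw [Ideal.span_singleton_le_iff_mem, Ideal.mem_comap, hπl]
        exact Ideal.zero_mem _
    exact fun z hz => h2 hz
  refine mulAt_congr (chartIdeal P l) (I ⊔ Ideal.span {y}) v v' up ?_ ?_ ?_ ?_
  · intro z
    exact ⟨π z, Ideal.mem_sup_right (hsub z)⟩
  · intro x
    constructor
    · intro hx
      have := hπI _ hx
      rwa [hπu] at this
    · intro hx
      have h2 : chartIdeal P l ≤ (I ⊔ Ideal.span {y}).comap up := by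
        refine sup_le ?_ ?_
        · rw [eigIdeal, Ideal.span_le]
          rintro _ ⟨a, b, rfl⟩
          change up _ ∈ I ⊔ Ideal.span {y}
          have h3 := minor_xx P H a b
          have h4 : up (X a * pderiv b P - X b * pderiv a P) =
              (X a.castSucc * pderiv b.castSucc (lf P H) -
                X b.castSucc * pderiv a.castSucc (lf P H)) -
              y * (y * up (X a * pderiv b H - X b * pderiv a H)) := by
            rw [h3]
            ring
          rw [h4]
          refine Ideal.sub_mem _ (Ideal.mem_sup_left (Ideal.mem_sup_left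
            (Ideal.subset_span ⟨a.castSucc, b.castSucc, rfl⟩)))
            (Ideal.mem_sup_right (Ideal.mul_mem_right _ _ (Ideal.mem_span_singleton_self y)))
        · rw [Ideal.span_singleton_le_iff_mem, Ideal.mem_comap, map_sub, map_one, ← hlin]
          exact Ideal.mem_sup_left (Ideal.mem_sup_right (Ideal.mem_span_singleton_self _))
      exact h2 hx
  · intro x
    rw [eval_up, hvc']
  · intro z hz
    have h2 : I ⊔ Ideal.span {y} ≤ RingHom.ker (eval v') := by
      refine sup_le (sup_le ?_ ?_) ?_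
      · rw [eigIdeal, Ideal.span_le]
        rintro _ ⟨a, b, rfl⟩
        change eval v' _ = 0
        rw [map_sub, map_mul, map_mul, eval_X, eval_X]
        exact (isEig_snoc hv).2 a b
      · rw [Ideal.span_singleton_le_iff_mem, RingHom.mem_ker, map_sub, map_one, hlin, eval_up, hvc',
          hl, sub_self]
      · rw [Ideal.span_singleton_le_iff_mem, RingHom.mem_ker, hy, eval_X, hvl]
    exact h2 hz

end LS

/-- **the step L** -/
theorem L_step {q N m : ℕ} (hq : 2 ≤ q) (_hN : 1 ≤ N) (h : Rz q N m) : Rz q (N + 1) m := by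
  obtain ⟨P, hP, hfin, l, v, hv, hl, hm⟩ := h
  have hq : 1 ≤ q := by omega
  obtain ⟨b, hb⟩ := LS.exists_b hP hfin
  obtain ⟨θ, hθ⟩ := LS.exists_theta hP hfin hq hb
  set H : MvPolynomial (Fin N) ℂ := C θ * linForm b ^ (q - 1) with hH
  have hHh : H.IsHomogeneous (q - 1) := by
    have h1 := (isHomogeneous_C (Fin N) θ).mul ((linForm_isHomogeneous b).pow (q - 1))
    rwa [zero_add, one_mul] at h1
  have hgen : ∀ x, IsEigenvector P x → ∃ i, eval x (pderiv i P) ≠ 2 * eval x H * x i := by
    intro x hx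
    obtain ⟨i, hi⟩ := hθ x hx
    refine ⟨i, fun h1 => hi ?_⟩
    rw [h1, hH, map_mul, eval_C, map_pow]
    ring
  refine ⟨LS.lf P H, LS.lf_hom hq hP hHh, LS.lf_finite hq hP hHh hfin hgen, Fin.snoc l 0,
    Fin.snoc v 0, LS.isEig_snoc hv, ?_, ?_⟩
  · rw [LS.eval_linForm, Fin.sum_univ_castSucc, Fin.snoc_last, Fin.snoc_last, mul_zero, add_zero]
    rw [LS.eval_linForm] at hl
    rw [← hl]
    refine Finset.sum_congr rfl fun i _ => ?_
    rw [Fin.snoc_castSucc, Fin.snoc_castSucc]
  · rw [LS.mulAt_lf hv hl (hgen v hv)]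
    exact hm

end EY
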