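import Pool.Agent.helper51.EY.ZSt
import Pool.Agent.helper46.U.Gen

set_option autoImplicit false
set_option linter.unusedSectionVars false
set_option linter.unusedSimpArgs false

/-!
# EY-ZT4 (proof): the sheet `h = b + ω w = 0` of the step `Z(ω)`, `ω ≠ 0`, `q` even, over a state without critical
lines in `w = b = 0`
-/

namespace EY

open MvPolynomial

noncomputable section

namespace T4

variable {ρ : Type} [Fintype ρ] [DecidableEq ρ]

/-- the weights `w : 4`, `y : q`, `b : 4`, `z : 2` -/
def wt (ρ : Type) (q : ℕ) : Option (Option (Option ρ)) → ℕ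
  | none => 4
  | some none => q
  | some (some none) => 4
  | some (some (some _)) => 2

/-- twice the weights `2, 1, ..., 1` -/
def v2 (ρ : Type) : Option (Option (Option ρ)) → ℕ := fun o => 2 * vw (Option ρ) o

/-- the initial form of `T` -/
def T0 (ρ : Type) [Fintype ρ] : MvPolynomial (Option (Option (Option ρ))) ℂ :=
  X none + C (1 / 2) * ∑ r : ρ, X (some (some (some r))) ^ 2

/-- the initial substitution -/
def ini (ρ : Type) [Fintype ρ] : MvPolynomial (Option (Option (Option ρ))) ℂ →ₐ[ℂ]
    MvPolynomial (Option (Option (Option ρ))) ℂ :=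
  aeval fun o => o.elim (T0 ρ) fun o' => o'.elim 0 fun o'' => o''.elim 0 fun r => X (some (some (some r)))

theorem wh_T0 (q : ℕ) : wh (wt ρ q) 4 (T0 ρ) := by
  unfold T0
  refine wh_add (wh_X (wt ρ q) none) (wh_C_mul _ (wh_sum _ fun r _ => ?_))
  exact wh_pow (wh_X (wt ρ q) (some (some (some r)))) 2

theorem lead_T (q : ℕ) (hq : 3 ≤ q) : Lead (wt ρ q) 4 (qc (Option (Option ρ))) (T0 ρ) := by
  unfold qc T0
  rw [Fintype.sum_option, Fintype.sum_option]
  refine Lead.add (Lead.X (wt ρ q) none) (Lead.C_mul _ ?_)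
  have h1 : Lead (wt ρ q) 4 (X (some none) ^ 2 : MvPolynomial (Option (Option (Option ρ))) ℂ) 0 :=
    Lead.of_lt (s' := q * 2) (wh_pow (wh_X (wt ρ q) (some none)) 2).wlo (by omega)
  have h2 : Lead (wt ρ q) 4 (X (some (some none)) ^ 2 : MvPolynomial (Option (Option (Option ρ))) ℂ) 0 :=
    Lead.of_lt (s' := 4 * 2) (wh_pow (wh_X (wt ρ q) (some (some none))) 2).wlo (by omega)
  have h3 : Lead (wt ρ q) 4 (∑ r : ρ, X (some (some (some r))) ^ 2 : MvPolynomial (Option (Option (Option ρ))) ℂ)
      (∑ r : ρ, X (some (some (some r))) ^ 2) :=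
    Lead.sum _ fun r _ => (Lead.X (wt ρ q) (some (some (some r)))).pow 2
  have h4 := h1.add (h2.add h3)
  rwa [zero_add, zero_add] at h4

theorem lead_chY {q : ℕ} (hq : 3 ≤ q) {n : ℕ} {ψ : MvPolynomial (Option (Option (Option ρ))) ℂ}
    (h : wh (vw (Option ρ)) n ψ) : Lead (wt ρ q) (2 * n) (chY (Option ρ) ψ) (ini ρ ψ) := by
  have h2 : wh (v2 ρ) (2 * n) ψ := by
    intro α hα
    rw [← h α hα]
    unfold wd v2
    rw [Finset.mul_sum]
    exact Finset.sum_congr rfl fun i _ => by ring
  unfold chY ini
  refine Lead.aeval (v := v2 ρ) ?_ (Lead.self h2.wlo)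
  intro o
  rcases o with _ | _ | _ | r
  · exact lead_T q hq
  · exact Lead.of_lt (s := 2) (s' := 4) (wh_X (wt ρ q) none).wlo (by omega)
  · exact Lead.of_lt (s := 2) (s' := 4) (wh_X (wt ρ q) (some (some none))).wlo (by omega)
  · exact Lead.X (wt ρ q) (some (some (some r)))

theorem wh_ini {q n : ℕ} {ψ : MvPolynomial (Option (Option (Option ρ))) ℂ}
    (h : wh (vw (Option ρ)) n ψ) : wh (wt ρ q) (2 * n) (ini ρ ψ) := by
  have h2 : wh (v2 ρ) (2 * n) ψ := by
    intro α hα
    rw [← h α hα]
    unfold wd v2
    rw [Finset.mul_sum]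
    exact Finset.sum_congr rfl fun i _ => by ring
  unfold ini
  refine wh_aeval (v := v2 ρ) ?_ h2
  intro o
  rcases o with _ | _ | _ | r
  · exact wh_T0 q
  · exact wh_zero _ _
  · exact wh_zero _ _
  · exact wh_X (wt ρ q) (some (some (some r)))

theorem eval_ini (x : Option (Option (Option ρ)) → ℂ) (ψ : MvPolynomial (Option (Option (Option ρ))) ℂ) :
    eval x (ini ρ ψ) = eval (zpt (eval x (T0 ρ)) 0 0 fun r => x (some (some (some r)))) ψ := by
  have h : (eval x).comp (ini ρ : MvPolynomial (Option (Option (Option ρ))) ℂ →+* _) =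
      eval (zpt (eval x (T0 ρ)) 0 0 fun r => x (some (some (some r)))) := by
    apply MvPolynomial.ringHom_ext
    · intro c
      simp [ini]
    · intro o
      unfold ini
      rcases o with _ | _ | _ | r
      · simp [zpt, vec]
      · simp [zpt, vec]
      · simp [zpt, vec]
      · simp [zpt, vec]
  exact RingHom.congr_fun h ψ

/-- the equivalent system -/
def sys (φ : MvPolynomial (Option (Option (Option ρ))) ℂ) (θ ω : ℂ) :
    Option (Option (Option ρ)) → MvPolynomial (Option (Option (Option ρ))) ℂ
  | none => zh ρ ω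
  | some none => zL φ θ ω
  | some (some none) => chY (Option ρ) (pderiv (some none) φ) - C ω * chY (Option ρ) (pderiv (some (some none)) φ)
  | some (some (some r)) => chY (Option ρ) (pderiv (some (some (some r))) φ)

theorem span_sys (φ : MvPolynomial (Option (Option (Option ρ))) ℂ) {θ ω : ℂ} (hω : ω ≠ 0) :
    Ideal.span (Set.range (zSys φ θ ω (zh ρ ω))) = Ideal.span (Set.range (sys φ θ ω)) := by
  have hωC : C ω⁻¹ * C ω = (1 : MvPolynomial (Option (Option (Option ρ))) ℂ) := by
    rw [← C_mul, inv_mul_cancel₀ hω, C_1]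
  apply le_antisymm
  · rw [Ideal.span_le]
    have m0 : zh ρ ω ∈ Ideal.span (Set.range (sys φ θ ω)) := Ideal.subset_span ⟨none, rfl⟩
    have m1 : zL φ θ ω ∈ Ideal.span (Set.range (sys φ θ ω)) := Ideal.subset_span ⟨some none, rfl⟩
    have m2 : chY (Option ρ) (pderiv (some none) φ) - C ω * chY (Option ρ) (pderiv (some (some none)) φ) ∈
        Ideal.span (Set.range (sys φ θ ω)) := Ideal.subset_span ⟨some (some none), rfl⟩
    have m3 : ∀ r, chY (Option ρ) (pderiv (some (some (some r))) φ) ∈ Ideal.span (Set.range (sys φ θ ω)) :=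
      fun r => Ideal.subset_span ⟨some (some (some r)), rfl⟩
    rintro _ ⟨o, rfl⟩
    rcases o with _ | _ | _ | r
    · exact m0
    · exact Ideal.sub_mem _ (Ideal.mul_mem_left _ _ m0) m1
    · change chY (Option ρ) (pderiv (some (some none)) φ) + C θ * X (some none) ^ 2 -
        X (some (some none)) * zL φ θ ω ∈ _
      refine Ideal.sub_mem _ ?_ (Ideal.mul_mem_left _ _ m1)
      have e : chY (Option ρ) (pderiv (some (some none)) φ) + C θ * X (some none) ^ 2 =
          C ω⁻¹ * (zL φ θ ω - (chY (Option ρ) (pderiv (some none) φ) -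
            C ω * chY (Option ρ) (pderiv (some (some none)) φ))) := by
        unfold zL
        rw [C_mul]
        linear_combination (-(chY (Option ρ) (pderiv (some (some none)) φ)) - C θ * X (some none) ^ 2) * hωC
      rw [e]
      exact Ideal.mul_mem_left _ _ (Ideal.sub_mem _ m1 m2)
    · exact Ideal.sub_mem _ (m3 r) (Ideal.mul_mem_left _ _ m1)
  · rw [Ideal.span_le]
    set I := Ideal.span (Set.range (zSys φ θ ω (zh ρ ω))) with hI
    have m0 : zh ρ ω ∈ I := Ideal.subset_span ⟨none, rfl⟩
    have m1' : C (2 * θ) * zh ρ ω - zL φ θ ω ∈ I := Ideal.subset_span ⟨some none, rfl⟩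
    have m1 : zL φ θ ω ∈ I := by
      have e : zL φ θ ω = C (2 * θ) * zh ρ ω - (C (2 * θ) * zh ρ ω - zL φ θ ω) := by ring
      rw [e]
      exact Ideal.sub_mem _ (Ideal.mul_mem_left _ _ m0) m1'
    have m2' : chY (Option ρ) (pderiv (some (some none)) φ) + C θ * X (some none) ^ 2 -
        X (some (some none)) * zL φ θ ω ∈ I := Ideal.subset_span ⟨some (some none), rfl⟩
    have m2 : chY (Option ρ) (pderiv (some (some none)) φ) + C θ * X (some none) ^ 2 ∈ I := by
      have e : chY (Option ρ) (pderiv (some (some none)) φ) + C θ * X (some none) ^ 2 =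
        (chY (Option ρ) (pderiv (some (some none)) φ) + C θ * X (some none) ^ 2 -
          X (some (some none)) * zL φ θ ω) + X (some (some none)) * zL φ θ ω := by ring
      rw [e]
      exact Ideal.add_mem _ m2' (Ideal.mul_mem_left _ _ m1)
    have m3' : ∀ r, chY (Option ρ) (pderiv (some (some (some r))) φ) -
      X (some (some (some r))) * zL φ θ ω ∈ I := fun r => Ideal.subset_span ⟨some (some (some r)), rfl⟩
    rintro _ ⟨o, rfl⟩
    rcases o with _ | _ | _ | r
    · exact m0
    · exact m1
    · change chY (Option ρ) (pderiv (some none) φ) - C ω * chY (Option ρ) (pderiv (some (some none)) φ) ∈ I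
      have e : chY (Option ρ) (pderiv (some none) φ) - C ω * chY (Option ρ) (pderiv (some (some none)) φ) =
          zL φ θ ω - C ω * (chY (Option ρ) (pderiv (some (some none)) φ) + C θ * X (some none) ^ 2) := by
        unfold zL
        rw [C_mul]
        ring
      rw [e]
      exact Ideal.sub_mem _ m1 (Ideal.mul_mem_left _ _ m2)
    · change chY (Option ρ) (pderiv (some (some (some r))) φ) ∈ I
      have e : chY (Option ρ) (pderiv (some (some (some r))) φ) =
        (chY (Option ρ) (pderiv (some (some (some r))) φ) -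
          X (some (some (some r))) * zL φ θ ω) + X (some (some (some r))) * zL φ θ ω := by ring
      rw [e]
      exact Ideal.add_mem _ (m3' r) (Ideal.mul_mem_left _ _ m1)

end T4

open T4 in
theorem zT4_J1_h60 {ρ : Type} [Fintype ρ] [DecidableEq ρ] {q : ℕ} (hq : 3 ≤ q)
    {φ : MvPolynomial (Option (Option (Option ρ))) ℂ}
    (hφ : wh (vw (Option ρ)) (q + 1) φ) {θ ω : ℂ} (hθ : θ ≠ 0) (hω : ω ≠ 0)
    (hN : ∀ (s : ℂ) (z : ρ → ℂ), eval (zpt s 0 0 z) (pderiv (some none) φ) =
      ω * eval (zpt s 0 0 z) (pderiv (some (some none)) φ) →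
      (∀ r, eval (zpt s 0 0 z) (pderiv (some (some (some r))) φ) = 0) → s = 0 ∧ z = 0) :
    mulAt (Ideal.span (Set.range (zSys φ θ ω (zh ρ ω)))) 0 = q ^ (Fintype.card ρ + 1) := by
  rw [span_sys φ hω]
  have hw : ∀ i, 0 < wt ρ q i := by
    intro o
    rcases o with _ | _ | _ | r
    · exact Nat.succ_pos _
    · change 0 < q; omega
    · exact Nat.succ_pos _
    · exact Nat.succ_pos _
  have hd0 : ∀ v : Option (Option ρ), wh (vw (Option ρ)) q (pderiv (some v) φ) := fun v => wh_pderiv hφ _ q rfl
  set d : Option (Option (Option ρ)) → ℕ := fun o => o.elim 4 fun _ => 2 * q with hd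
  set g : Option (Option (Option ρ)) → MvPolynomial (Option (Option (Option ρ))) ℂ := fun o =>
    match o with
    | none => zh ρ ω
    | some none => ini ρ (pderiv (some none) φ) + C (θ * ω) * X (some none) ^ 2
    | some (some none) => ini ρ (pderiv (some none) φ) - C ω * ini ρ (pderiv (some (some none)) φ)
    | some (some (some r)) => ini ρ (pderiv (some (some (some r))) φ) with hg
  have hy2 : wh (wt ρ q) (2 * q) (X (some none) ^ 2 : MvPolynomial (Option (Option (Option ρ))) ℂ) := by
    have h1 := wh_pow (wh_X (wt ρ q) (some none)) 2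
    have h2 : wt ρ q (some none) * 2 = 2 * q := by change q * 2 = 2 * q; ring
    rwa [h2] at h1
  have h1 := wBez (σ := Option (Option (Option ρ))) (w := wt ρ q) hw (f := sys φ θ ω) (g := g) (d := d) ?_ ?_ ?_ ?_
  · rw [Fintype.prod_option, Fintype.prod_option, Fintype.prod_option, Fintype.prod_option, Fintype.prod_option,
      Fintype.prod_option] at h1
    have e1 : ∏ r : ρ, wt ρ q (some (some (some r))) = 2 ^ Fintype.card ρ := by
      change ∏ _r : ρ, 2 = 2 ^ Fintype.card ρ
      rw [Finset.prod_const, Finset.card_univ]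
    have e2 : ∏ r : ρ, d (some (some (some r))) = (2 * q) ^ Fintype.card ρ := by
      change ∏ _r : ρ, 2 * q = (2 * q) ^ Fintype.card ρ
      rw [Finset.prod_const, Finset.card_univ]
    rw [e1, e2] at h1
    have h2 : mulAt (Ideal.span (Set.range (sys φ θ ω))) 0 * (4 * (q * (4 * 2 ^ Fintype.card ρ))) =
        4 * (2 * q * (2 * q * (2 * q) ^ Fintype.card ρ)) := h1
    have h3 : mulAt (Ideal.span (Set.range (sys φ θ ω))) 0 * (16 * q * 2 ^ Fintype.card ρ) =
        q ^ (Fintype.card ρ + 1) * (16 * q * 2 ^ Fintype.card ρ) := by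
      rw [mul_pow] at h2
      rw [pow_succ]
      linear_combination h2
    exact Nat.eq_of_mul_eq_mul_right (by positivity) h3
  · intro o
    rcases o with _ | o
    · exact Nat.succ_pos _
    · change 0 < 2 * q; omega
  · intro o
    rcases o with _ | _ | _ | r
    · exact wh_add (wh_X (wt ρ q) (some (some none))) (wh_C_mul _ (wh_X (wt ρ q) none))
    · exact wh_add (wh_ini (hd0 none)) (wh_C_mul _ hy2)
    · exact wh_sub (wh_ini (hd0 none)) (wh_C_mul _ (wh_ini (hd0 (some none))))
    · exact wh_ini (hd0 (some (some r)))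
  · intro x hx
    have x0 := hx none
    have x1 := hx (some none)
    have x2 := hx (some (some none))
    have x3 : ∀ r, _ := fun r => hx (some (some (some r)))
    simp only [hg] at x0 x1 x2 x3
    have h3 := hN (eval x (T0 ρ)) (fun r => x (some (some (some r)))) (by
      rw [map_sub, map_mul, eval_C, eval_ini, eval_ini] at x2
      exact sub_eq_zero.mp x2) (fun r => by rw [← eval_ini]; exact x3 r)
    have hz : ∀ r, x (some (some (some r))) = 0 := fun r => congrFun h3.2 r
    have hT : x none = 0 := by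
      have h4 := h3.1
      unfold T0 at h4
      simp only [map_add, map_mul, map_sum, map_pow, eval_X, eval_C, hz] at h4
      simpa using h4
    have hb : x (some (some none)) = 0 := by
      unfold zh at x0
      simp only [map_add, map_mul, eval_X, eval_C, hT, mul_zero, add_zero] at x0
      exact x0
    have hy : x (some none) = 0 := by
      rw [map_add, map_mul, eval_C, map_pow, eval_X, eval_ini, h3.1, h3.2] at x1
      have h5 : eval (zpt 0 0 0 (0 : ρ → ℂ)) (pderiv (some none) φ) = 0 := by
        have h6 := eval_wh (hd0 none) 0 (zpt 0 0 0 (0 : ρ → ℂ))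
        rw [zero_pow (by omega : q ≠ 0), zero_mul] at h6
        convert h6 using 2
        congr 1
        funext o
        rcases o with _ | _ | _ | r <;> simp [zpt, vec]
      rw [h5, zero_add] at x1
      exact pow_eq_zero_iff (two_ne_zero) |>.mp ((mul_eq_zero.mp x1).resolve_left (mul_ne_zero hθ hω))
    funext o
    rcases o with _ | _ | _ | r
    · exact hT
    · exact hy
    · exact hb
    · exact hz r
  · intro o
    rcases o with _ | _ | _ | r
    · exact Lead.self (wh_add (wh_X (wt ρ q) (some (some none))) (wh_C_mul _ (wh_X (wt ρ q) none))).wlo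
    · exact (lead_chY hq (hd0 none)).add (Lead.C_mul _ (Lead.self hy2.wlo))
    · exact (lead_chY hq (hd0 none)).sub (Lead.C_mul _ (lead_chY hq (hd0 (some none))))
    · exact lead_chY hq (hd0 (some (some r)))

end

end EY
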