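import Pool.Agent.helper5.EY.St
import Pool.Agent.helper50.EY.Open
import Pool.Agent.helper50.EY.Cnt
import Pool.Agent.helper44.U.Anti
import Pool.Agent.helper46.U.Gen
import Pool.Agent.helper51.EY.ZSt

set_option autoImplicit false
set_option linter.unusedSectionVars false

/-!
# U0: the metric-free states `φ = σ b^(q-1) + Π(w, b, z)` for every value `N ≤ q^(K+1)`
-/

namespace EY.U0

open MvPolynomial Filter Topology

noncomputable section

/-- the weights `1` -/
abbrev w1 (σ : Type*) : σ → ℕ := fun _ => 1

/-! ### small perturbations -/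

section gen

variable {ρ : Type} [Fintype ρ] [DecidableEq ρ] {q : ℕ}

/-- `P₀ + ε B` -/
def PP (P0 : MvPolynomial ρ ℂ) (B : MvPolynomial (Option ρ) ℂ) (ε : ℂ) : MvPolynomial (Option ρ) ℂ :=
  rename some P0 + C ε * B

theorem pderiv_rs_none (P0 : MvPolynomial ρ ℂ) : pderiv none (rename (some : ρ → Option ρ) P0) = 0 := by
  apply pderiv_eq_zero_of_notMem_vars
  intro hmem
  obtain ⟨o, _, ho⟩ := Finset.mem_image.mp (vars_rename _ P0 hmem)
  simp at ho

theorem pderiv_rs_some (P0 : MvPolynomial ρ ℂ) (i : ρ) :
    pderiv (some i) (rename (some : ρ → Option ρ) P0) = rename some (pderiv i P0) :=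
  pderiv_rename (Option.some_injective ρ) (x := i) (p := P0)

theorem pderiv_PP_none (P0 : MvPolynomial ρ ℂ) (B : MvPolynomial (Option ρ) ℂ) (ε : ℂ) :
    pderiv none (PP P0 B ε) = C ε * pderiv none B := by
  unfold PP
  rw [map_add, pderiv_C_mul, pderiv_rs_none, zero_add]

theorem pderiv_PP_some (P0 : MvPolynomial ρ ℂ) (B : MvPolynomial (Option ρ) ℂ) (ε : ℂ) (i : ρ) :
    pderiv (some i) (PP P0 B ε) = rename some (pderiv i P0) + C ε * pderiv (some i) B := by
  unfold PP
  rw [map_add, pderiv_C_mul, pderiv_rs_some]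

theorem eval_smul_w1 {σ : Type*} [Fintype σ] {n : ℕ} {P : MvPolynomial σ ℂ} (h : wh (w1 σ) n P) (c : ℂ)
    (x : σ → ℂ) : eval (c • x) P = c ^ n * eval x P := by
  rw [← eval_wh h]
  congr 2
  funext i
  simp

theorem wh_rename {σ τ : Type*} [Fintype σ] [Fintype τ] (f : σ → τ) {n : ℕ} {P : MvPolynomial σ ℂ}
    (h : wh (w1 σ) n P) : wh (w1 τ) n (rename f P) := by
  have h0 : (rename f : MvPolynomial σ ℂ →ₐ[ℂ] MvPolynomial τ ℂ) = aeval (fun o => (X (f o) : MvPolynomial τ ℂ)) := by
    apply MvPolynomial.algHom_ext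
    intro i
    rw [rename_X, aeval_X]
  rw [h0]
  exact wh_aeval (v := w1 σ) (fun i => wh_X (w1 τ) (f i)) h

open Classical in
/-- nonsingularity on the coordinate subspace `p_v = 0 (v ∈ S)` -/
theorem gen (P0 : MvPolynomial ρ ℂ) (b : ρ) {B : MvPolynomial (Option ρ) ℂ} (hP : wh (w1 ρ) (q + 1) P0)
    (hB : wh (w1 (Option ρ)) (q + 1) B)
    (hA0 : ∀ p : Option ρ → ℂ, (∀ i, p (some i) = 0) → eval p (pderiv none B) = 0 → p none = 0)
    (ha : ∀ x : ρ → ℂ, (∀ i, eval x (pderiv i P0) = 0) → x = 0)
    (hb : ∀ x : ρ → ℂ, x b = 0 → (∀ i, i ≠ b → eval x (pderiv i P0) = 0) → x = 0)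
    (S : Set (Option ρ)) (hS : ∀ v ∈ S, v = none ∨ v = some b) :
    ∀ᶠ ε in 𝓝 (0 : ℂ), ε ≠ 0 → ∀ p : Option ρ → ℂ, (∀ v ∈ S, p v = 0) →
      (∀ v, v ∉ S → eval p (pderiv v (PP P0 B ε)) = 0) → p = 0 := by
  set G : Option ρ → ℂ → (Option ρ → ℂ) → ℂ := fun v t x =>
    if v ∈ S then x v else
      v.elim (eval x (pderiv none B)) fun i => eval x (rename some (pderiv i P0)) + t * eval x (pderiv (some i) B)
    with hG
  have hw : ∀ i, wh (w1 (Option ρ)) q (rename some (pderiv i P0)) := fun i =>
    wh_rename _ (wh_pderiv hP i q rfl)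
  have hwB : ∀ v, wh (w1 (Option ρ)) q (pderiv v B) := fun v => wh_pderiv hB v q rfl
  have hc : ∀ P : MvPolynomial (Option ρ) ℂ, Continuous fun z : ℂ × (Option ρ → ℂ) => eval z.2 P := fun P =>
    (MvPolynomial.continuous_eval P).comp continuous_snd
  have e1 : ∀ᶠ ε in 𝓝 (0 : ℂ), ∀ x : Option ρ → ℂ, (∀ v, G v ε x = 0) → x = 0 := by
    refine open_zero G (fun v => if v ∈ S then 1 else q) ?_ ?_ 0 ?_
    · intro v
      by_cases hv : v ∈ S
      · simp only [hG, if_pos hv]
        exact (continuous_apply v).comp continuous_snd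
      · simp only [hG, if_neg hv]
        rcases v with _ | i
        · exact hc _
        · exact (hc _).add (continuous_fst.mul (hc _))
    · intro v t c x
      by_cases hv : v ∈ S
      · simp only [hG, if_pos hv, Pi.smul_apply, smul_eq_mul, pow_one]
      · simp only [hG, if_neg hv]
        rcases v with _ | i
        · exact eval_smul_w1 (hwB none) c x
        · simp only [Option.elim]
          rw [eval_smul_w1 (hw i), eval_smul_w1 (hwB (some i))]
          ring
    · intro x hx
      have h1 : ∀ i, some i ∉ S → eval (fun j => x (some j)) (pderiv i P0) = 0 := by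
        intro i hi
        have h2 := hx (some i)
        simp only [hG, if_neg hi, Option.elim, zero_mul, add_zero] at h2
        rw [eval_rename] at h2
        exact h2
      have h0 : (fun j => x (some j)) = 0 := by
        by_cases hbS : some b ∈ S
        · apply hb
          · have h2 := hx (some b)
            simp only [hG, if_pos hbS] at h2
            exact h2
          · intro i hi
            apply h1
            intro hiS
            rcases hS _ hiS with h | h
            · cases h
            · exact hi (Option.some_injective _ h)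
        · apply ha
          intro i
          apply h1
          intro hiS
          rcases hS _ hiS with h | h
          · cases h
          · rw [h] at hiS
            exact hbS hiS
      funext v
      rcases v with _ | i
      · by_cases hn : none ∈ S
        · have h2 := hx none
          simp only [hG, if_pos hn] at h2
          exact h2
        · have h2 := hx none
          simp only [hG, if_neg hn, Option.elim] at h2
          exact hA0 x (fun i => congrFun h0 i) h2
      · exact congrFun h0 i
  filter_upwards [e1] with ε h1 hε p hp hp'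
  apply h1
  intro v
  by_cases hv : v ∈ S
  · simp only [hG, if_pos hv]
    exact hp v hv
  · simp only [hG, if_neg hv]
    have h2 := hp' v hv
    rcases v with _ | i
    · rw [pderiv_PP_none, map_mul, eval_C] at h2
      exact (mul_eq_zero.mp h2).resolve_left hε
    · rw [pderiv_PP_some, map_add, map_mul, eval_C] at h2
      exact h2

end gen

/-! ### the conditions -/

/-- nonsingularity conditions; the variables are `none = w`, `some none = b`, `some (some i) = z_i` -/
structure NS {ι : Type} [Fintype ι] (q : ℕ) (P : MvPolynomial (Option (Option ι)) ℂ) : Prop where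
  hom : wh (w1 _) (q + 1) P
  n1 : ∀ p : Option (Option ι) → ℂ, (∀ v, eval p (pderiv v P) = 0) → p = 0
  n2 : ∀ p : Option (Option ι) → ℂ, p (some none) = 0 → (∀ v, v ≠ some none → eval p (pderiv v P) = 0) → p = 0
  n3 : ∀ p : Option (Option ι) → ℂ, p none = 0 → (∀ v : Option ι, eval p (pderiv (some v) P) = 0) → p = 0
  n4 : ∀ p : Option (Option ι) → ℂ, p none = 0 → p (some none) = 0 →
    (∀ i : ι, eval p (pderiv (some (some i)) P) = 0) → p = 0

/-- the system `(Π_w, Π_z)` at `w = 1` -/
def sysW {ι : Type} [Fintype ι] [DecidableEq ι] (P : MvPolynomial (Option (Option ι)) ℂ) :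
    Option ι → MvPolynomial (Option ι) ℂ :=
  fun o => dehom (pderiv (o.elim none fun i => some (some i)) P)

/-- the states with value `N` -/
def VP (ι : Type) [Fintype ι] [DecidableEq ι] (q N : ℕ) : Prop :=
  ∃ P : MvPolynomial (Option (Option ι)) ℂ, NS q P ∧
    Module.Finite ℂ (MvPolynomial (Option ι) ℂ ⧸ Ideal.span (Set.range (sysW P))) ∧
    Module.finrank ℂ (MvPolynomial (Option ι) ℂ ⧸ Ideal.span (Set.range (sysW P))) = N

theorem gen_NS {ι : Type} [Fintype ι] [DecidableEq ι] {q : ℕ} (P0 : MvPolynomial (Option ι) ℂ)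
    {B : MvPolynomial (Option (Option ι)) ℂ} (hP : wh (w1 _) (q + 1) P0)
    (hB : wh (w1 _) (q + 1) B)
    (hA0 : ∀ p : Option (Option ι) → ℂ, (∀ i, p (some i) = 0) → eval p (pderiv none B) = 0 → p none = 0)
    (ha : ∀ x : Option ι → ℂ, (∀ i, eval x (pderiv i P0) = 0) → x = 0)
    (hb : ∀ x : Option ι → ℂ, x none = 0 → (∀ i, i ≠ none → eval x (pderiv i P0) = 0) → x = 0) :
    ∃ ε : ℂ, ε ≠ 0 ∧ NS q (PP P0 B ε) := by
  have g := gen P0 none hP hB hA0 ha hb
  have e1 := g ∅ (by simp)
  have e2 := g {some none} (by intro v hv; exact Or.inr hv)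
  have e3 := g {none} (by intro v hv; exact Or.inl hv)
  have e4 := g {none, some none} (by intro v hv; exact hv)
  obtain ⟨ε, hε, h1, h2, h3, h4⟩ := exists_ne_of_eventually (e1.and (e2.and (e3.and e4)))
  refine ⟨ε, hε, wh_add (wh_rename _ hP) (wh_C_mul _ hB), ?_, ?_, ?_, ?_⟩
  · intro p hp
    exact h1 hε p (by simp) fun v _ => hp v
  · intro p hp0 hp
    exact h2 hε p (by intro v hv; rw [Set.mem_singleton_iff.mp hv]; exact hp0) fun v hv => hp v hv
  · intro p hp0 hp
    refine h3 hε p (by intro v hv; rw [Set.mem_singleton_iff.mp hv]; exact hp0) fun v hv => ?_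
    rcases v with _ | v
    · exact absurd rfl hv
    · exact hp v
  · intro p hp0 hp1 hp
    refine h4 hε p (by rintro v (rfl | rfl); exacts [hp0, hp1]) fun v hv => ?_
    rcases v with _ | _ | v
    · exact absurd (Or.inl rfl) hv
    · exact absurd (Or.inr rfl) hv
    · exact hp v

/-! ### base -/

theorem sysW_none {ι : Type} [Fintype ι] [DecidableEq ι] (P : MvPolynomial (Option (Option ι)) ℂ) :
    sysW P none = dehom (pderiv none P) := rfl

theorem sysW_some {ι : Type} [Fintype ι] [DecidableEq ι] (P : MvPolynomial (Option (Option ι)) ℂ) (i : ι) :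
    sysW P (some i) = dehom (pderiv (some (some i)) P) := rfl

theorem wh_aeval_zero {σ : Type} [Fintype σ] [DecidableEq σ] {n : ℕ} {F : MvPolynomial (Option σ) ℂ}
    (h : wh (w1 _) n F) : wh (w1 σ) n (aeval (fun o : Option σ => o.elim (0 : MvPolynomial σ ℂ) X) F) := by
  refine wh_aeval (v := w1 (Option σ)) ?_ h
  intro o
  rcases o with _ | i
  · exact wh_zero _ _
  · exact wh_X (w1 σ) i

/-- the top form of the dehomogenization -/
theorem top_dehom {σ : Type} [Fintype σ] [DecidableEq σ] {n : ℕ} {F : MvPolynomial (Option σ) ℂ}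
    (h : wh (w1 _) n F) : Top (w1 σ) n (dehom F) (aeval (fun o : Option σ => o.elim (0 : MvPolynomial σ ℂ) X) F) := by
  unfold dehom
  refine Top.aeval (v := w1 (Option σ)) ?_ (Top.self h.wlt)
  intro o
  rcases o with _ | i
  · exact Top.zero (wh_one (w1 σ)).wlt
  · exact Top.X (w1 σ) i

theorem eval_aeval0 {σ : Type} [Fintype σ] [DecidableEq σ] (F : MvPolynomial (Option σ) ℂ) (x : σ → ℂ) :
    eval x (aeval (fun o : Option σ => o.elim (0 : MvPolynomial σ ℂ) X) F) = eval (fun o => o.elim 0 x) F := by
  have h : (eval x).comp ((aeval (fun o : Option σ => o.elim (0 : MvPolynomial σ ℂ) X) :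
      MvPolynomial (Option σ) ℂ →ₐ[ℂ] MvPolynomial σ ℂ) : MvPolynomial (Option σ) ℂ →+* MvPolynomial σ ℂ) =
      eval (fun o : Option σ => o.elim 0 x) := by
    apply MvPolynomial.ringHom_ext
    · intro c
      simp
    · intro i
      cases i <;> simp
  exact RingHom.congr_fun h F

/-- the sheet `b = 1` -/
theorem sheet_b {ι : Type} [Fintype ι] [DecidableEq ι] {q : ℕ} (hq : 0 < q)
    {P : MvPolynomial (Option (Option ι)) ℂ} (h : NS q P) :
    Module.Finite ℂ (MvPolynomial (Option ι) ℂ ⧸
      Ideal.span (Set.range (Function.update (sysW P) none (1 - X none)))) ∧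
    Module.finrank ℂ (MvPolynomial (Option ι) ℂ ⧸
      Ideal.span (Set.range (Function.update (sysW P) none (1 - X none)))) = q ^ Fintype.card ι := by
  have h1 := wAff (σ := Option ι) (w := w1 _) (f := Function.update (sysW P) none (1 - X none))
    (g := fun o => o.elim (-X none) fun i =>
      aeval (fun o : Option (Option ι) => o.elim (0 : MvPolynomial (Option ι) ℂ) X) (pderiv (some (some i)) P))
    (d := fun o => o.elim 1 fun _ => q) (fun _ => one_pos) ?_ ?_ ?_ ?_
  · refine ⟨h1.1, ?_⟩
    have h2 := h1.2
    simpa [Fintype.prod_option] using h2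
  · intro o
    rcases o with _ | i
    · exact one_pos
    · exact hq
  · intro o
    rcases o with _ | i
    · exact wh_neg (wh_X (w1 _) none)
    · refine wh_aeval_zero ?_
      exact wh_pderiv h.hom _ q rfl
  · intro x hx
    have h3 := h.n4 (fun o => o.elim 0 x) rfl (by
      have := hx none
      simpa using this) (fun i => by
      rw [← eval_aeval0]
      exact hx (some i))
    funext o
    exact congrFun h3 (some o)
  · intro o
    rcases o with _ | i
    · rw [Function.update_self]
      simp only [Option.elim]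
      have h5 : Top (w1 (Option ι)) 1 ((1 : MvPolynomial (Option ι) ℂ) + -X none) (0 + -X none) :=
        (Top.zero (wh_one _).wlt).add (Top.X (w1 _) none).neg
      rwa [zero_add, ← sub_eq_add_neg] at h5
    · rw [Function.update_of_ne (by simp)]
      exact top_dehom (wh_pderiv h.hom _ q rfl)

theorem dehom_rename {σ : Type} [Fintype σ] [DecidableEq σ] (f : MvPolynomial σ ℂ) :
    dehom (rename some f) = f := subN_rename 1 f

theorem dehom_C {σ : Type} [Fintype σ] [DecidableEq σ] (c : ℂ) :
    dehom (C c : MvPolynomial (Option σ) ℂ) = C c := dehom.commutes c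

/-- the level `K = 0` -/
theorem base {ι : Type} [Fintype ι] [DecidableEq ι] [IsEmpty ι] {q : ℕ} (hq : 0 < q) (N : ℕ) (hN : N ≤ q) :
    VP ι q N := by
  set P0 : MvPolynomial (Option ι) ℂ := X none ^ (q + 1) with hP0
  set A : MvPolynomial (Option (Option ι)) ℂ := X none ^ (q - N) * (X none - X (some none)) ^ N with hA
  have hAw : wh (w1 _) q A := by
    have h1 := wh_mul (wh_pow (wh_X (w1 (Option (Option ι))) none) (q - N))
      (wh_pow (wh_sub (wh_X (w1 (Option (Option ι))) none) (wh_X (w1 (Option (Option ι))) (some none))) N)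
    have h2 : 1 * (q - N) + 1 * N = q := by omega
    rw [h2] at h1
    exact h1
  have hB := UO.wh_anti hAw none (q + 1) rfl
  have hdB := UO.pderiv_anti none A
  have hpd : pderiv none P0 = (q + 1 : ℕ) • X none ^ q := by
    rw [hP0, Derivation.leibniz_pow, pderiv_X_self, Nat.add_sub_cancel, smul_eq_mul, mul_one]
  have hx0 : ∀ x : Option ι → ℂ, x none = 0 → x = 0 := by
    intro x hx
    funext o
    rcases o with _ | i
    · exact hx
    · exact isEmptyElim i
  obtain ⟨ε, hε, hNS⟩ := gen_NS P0 (B := UO.anti none A) (q := q) (by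
      have := wh_pow (wh_X (w1 (Option ι)) none) (q + 1)
      rwa [one_mul] at this) hB (by
      intro p hp h
      rw [hdB, hA, map_mul, map_pow, map_pow, map_sub, eval_X, eval_X, hp none, sub_zero, ← pow_add] at h
      exact (pow_eq_zero_iff (by omega)).mp h) (by
      intro x hx
      apply hx0
      have h1 := hx none
      rw [hpd, map_nsmul, map_pow, eval_X, nsmul_eq_mul] at h1
      rcases mul_eq_zero.mp h1 with h | h
      · exact absurd h (by exact_mod_cast Nat.succ_ne_zero q)
      · exact (pow_eq_zero_iff (by omega)).mp h) (fun x hx _ => hx0 x hx)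
  refine ⟨_, hNS, ?_⟩
  have h1 : sysW (PP P0 (UO.anti none A) ε) none = C ε * (1 - X none) ^ N := by
    rw [sysW_none, pderiv_PP_none, hdB, map_mul, dehom_C, hA, map_mul, map_pow, map_pow, map_sub, dehom_X_none,
      dehom_X_some, one_pow, one_mul]
  have h2 : Ideal.span (Set.range (sysW (PP P0 (UO.anti none A) ε))) =
      Ideal.span (Set.range (Function.update (sysW (PP P0 (UO.anti none A) ε)) none ((1 - X none) ^ N))) := by
    have h3 := cnt_unit (sysW (PP P0 (UO.anti none A) ε)) none (C ε) ((1 - X none) ^ N) ε hε (by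
      rw [sub_self]; exact Ideal.zero_mem _)
    rw [← h1, Function.update_eq_self] at h3
    exact h3
  obtain ⟨h3, h4⟩ := sheet_b hq hNS
  obtain ⟨h5, h6⟩ := cnt_pow _ none _ h3 N
  rw [h2]
  refine ⟨h5, ?_⟩
  rw [h6, h4, Fintype.card_eq_zero, pow_zero, mul_one]

/-! ### the step -/

section step

variable {ι : Type} [Fintype ι] [DecidableEq ι] {q : ℕ}

/-- exchange of `w` and `b` -/
def sw (ι : Type) [DecidableEq ι] : Equiv.Perm (Option (Option ι)) := Equiv.swap none (some none)

theorem sw_none : sw ι none = some none := Equiv.swap_apply_left _ _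

theorem sw_some_none : sw ι (some none) = none := Equiv.swap_apply_right _ _

theorem sw_some_some (i : ι) : sw ι (some (some i)) = some (some i) :=
  Equiv.swap_apply_of_ne_of_ne (by simp) (by simp)

theorem pderiv_sw (P : MvPolynomial (Option (Option ι)) ℂ) (v : Option (Option ι)) :
    pderiv (sw ι v) (rename (sw ι) P) = rename (sw ι) (pderiv v P) :=
  pderiv_rename (sw ι).injective (x := v) (p := P)

theorem eval_sw (P : MvPolynomial (Option (Option ι)) ℂ) (x : Option (Option ι) → ℂ) :
    eval x (rename (sw ι) P) = eval (fun v => x (sw ι v)) P := by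
  rw [eval_rename]; rfl

/-- `w ↦ z₁` -/
def sb (ι : Type) : MvPolynomial (Option (Option (Option ι))) ℂ →ₐ[ℂ] MvPolynomial (Option (Option (Option ι))) ℂ :=
  aeval fun o => o.elim (X (some (some none))) fun j => X (some j)

theorem sb_none : sb ι (X none) = X (some (some none)) := by unfold sb; rw [aeval_X]; rfl

theorem sb_some (j : Option (Option ι)) : sb ι (X (some j)) = X (some j) := by unfold sb; rw [aeval_X]; rfl

theorem sub_sb_dvd (F : MvPolynomial (Option (Option (Option ι))) ℂ) :
    X none - X (some (some none)) ∣ F - sb ι F := by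
  rw [← Ideal.mem_span_singleton, ← Ideal.Quotient.eq]
  have h : (Ideal.Quotient.mkₐ ℂ (Ideal.span {(X none - X (some (some none)) :
      MvPolynomial (Option (Option (Option ι))) ℂ)})) =
      ((Ideal.Quotient.mkₐ ℂ (Ideal.span {(X none - X (some (some none)) :
      MvPolynomial (Option (Option (Option ι))) ℂ)})).comp (sb ι)) := by
    apply MvPolynomial.algHom_ext
    intro o
    rcases o with _ | j
    · simp only [AlgHom.comp_apply, sb_none, Ideal.Quotient.mkₐ_eq_mk]
      rw [Ideal.Quotient.eq, Ideal.mem_span_singleton]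
    · simp only [AlgHom.comp_apply, sb_some]
  exact AlgHom.congr_fun h F

theorem pderiv_sb_none (F : MvPolynomial (Option (Option (Option ι))) ℂ) : pderiv none (sb ι F) = 0 := by
  unfold sb
  rw [UO.chain]
  apply Finset.sum_eq_zero
  intro v _
  rcases v with _ | j
  · simp only [Option.elim]
    rw [pderiv_X, Pi.single_eq_of_ne (by simp), mul_zero]
  · simp only [Option.elim]
    rw [pderiv_X, Pi.single_eq_of_ne (by simp), mul_zero]

theorem pderiv_sb_some (F : MvPolynomial (Option (Option (Option ι))) ℂ) (j : Option (Option ι))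
    (hF : sb ι (pderiv none F) = 0) : pderiv (some j) (sb ι F) = sb ι (pderiv (some j) F) := by
  unfold sb at hF ⊢
  rw [UO.chain, Fintype.sum_option, hF, zero_mul, zero_add, Finset.sum_eq_single j]
  · simp only [Option.elim]
    rw [pderiv_X_self, mul_one]
  · intro k _ hk
    simp only [Option.elim]
    rw [pderiv_X, Pi.single_eq_of_ne (by simpa using hk), mul_zero]
  · intro h
    exact absurd (Finset.mem_univ j) h

theorem wh_sb {n : ℕ} {F : MvPolynomial (Option (Option (Option ι))) ℂ} (h : wh (w1 _) n F) :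
    wh (w1 _) n (sb ι F) := by
  unfold sb
  refine wh_aeval (v := w1 _) ?_ h
  intro o
  rcases o with _ | j
  · exact wh_X (w1 _) _
  · exact wh_X (w1 _) _

theorem elim_sw (F : MvPolynomial (Option (Option ι)) ℂ) : elimY 1 (rename (sw ι) F) = dehom F := by
  have h : (elimY (1 : MvPolynomial (Option ι) ℂ)).comp (rename (sw ι)) = dehom := by
    apply MvPolynomial.algHom_ext
    intro o
    rw [AlgHom.comp_apply, rename_X]
    rcases o with _ | _ | i
    · rw [sw_none, elimY_y, dehom_X_none]
    · rw [sw_some_none, elimY_none, dehom_X_some]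
    · rw [sw_some_some, elimY_some, dehom_X_some]
  exact AlgHom.congr_fun h F

theorem step (hq : 0 < q) (x N : ℕ) (hx : x + 1 ≤ q) (h : VP ι q N) :
    VP (Option ι) q (N + x * q ^ (Fintype.card ι + 1)) := by
  obtain ⟨P, hP, hfin, hlen⟩ := h
  set P0 : MvPolynomial (Option (Option ι)) ℂ := rename (sw ι) P with hP0
  set A : MvPolynomial (Option (Option (Option ι))) ℂ :=
    X none ^ (q - 1 - x) * ((X none - X (some (some none))) * (X none - X (some none)) ^ x) with hA
  have hAw : wh (w1 _) q A := by
    have h1 := wh_mul (wh_pow (wh_X (w1 (Option (Option (Option ι)))) none) (q - 1 - x))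
      (wh_mul (wh_sub (wh_X (w1 (Option (Option (Option ι)))) none)
        (wh_X (w1 (Option (Option (Option ι)))) (some (some none))))
      (wh_pow (wh_sub (wh_X (w1 (Option (Option (Option ι)))) none)
        (wh_X (w1 (Option (Option (Option ι)))) (some none))) x))
    have h2 : 1 * (q - 1 - x) + (1 + 1 * x) = q := by omega
    rw [h2] at h1
    exact h1
  set F := UO.anti none A with hF
  have hFw : wh (w1 _) (q + 1) F := UO.wh_anti hAw none (q + 1) rfl
  have hdF : pderiv none F = A := UO.pderiv_anti none A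
  have hsA : sb ι (pderiv none F) = 0 := by
    rw [hdF, hA, map_mul, map_mul, map_sub, sb_none, sb_some, sub_self, zero_mul, mul_zero]
  set B := F - sb ι F with hB
  have hBw : wh (w1 _) (q + 1) B := wh_sub hFw (wh_sb hFw)
  have hdB : pderiv none B = A := by rw [hB, map_sub, hdF, pderiv_sb_none, sub_zero]
  have hdB' : ∀ j : Option (Option ι), ∃ c, dehom (pderiv (some j) B) = (1 - X (some none)) * c := by
    intro j
    obtain ⟨c, hc⟩ := sub_sb_dvd (pderiv (some j) F)
    refine ⟨dehom c, ?_⟩
    rw [hB, map_sub, pderiv_sb_some _ _ hsA, hc, map_mul, map_sub, dehom_X_none, dehom_X_some]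
  have hP0w : wh (w1 _) (q + 1) P0 := wh_rename _ hP.hom
  obtain ⟨ε, hε, hNS⟩ := gen_NS P0 (B := B) (q := q) hP0w hBw (by
      intro p hp h
      rw [hdB, hA, map_mul, map_mul, map_pow, map_pow, map_sub, map_sub, eval_X, eval_X, eval_X, hp, hp, sub_zero,
        ← pow_succ', ← pow_add] at h
      exact (pow_eq_zero_iff (by omega)).mp h) (by
      intro y hy
      have h1 := hP.n1 (fun v => y (sw ι v)) (fun v => by
        rw [← eval_sw, ← pderiv_sw]
        exact hy _)
      funext v
      have h2 := congrFun h1 ((sw ι).symm v)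
      simpa using h2) (by
      intro y hy0 hy
      have h1 := hP.n2 (fun v => y (sw ι v)) (by rw [sw_some_none]; exact hy0) (fun v hv => by
        rw [← eval_sw, ← pderiv_sw]
        apply hy
        intro h2
        apply hv
        rw [← sw_some_none (ι := ι)] at h2
        exact (sw ι).injective h2)
      funext v
      have h2 := congrFun h1 ((sw ι).symm v)
      simpa using h2)
  set Q := PP P0 B ε with hQ
  refine ⟨Q, hNS, ?_⟩
  have h1 : sysW Q none = C ε * ((1 - X (some none)) * (1 - X none) ^ x) := by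
    rw [sysW_none, hQ, pderiv_PP_none, hdB, map_mul, dehom_C, hA, map_mul, map_mul, map_pow, map_pow, map_sub, map_sub,
      dehom_X_none, dehom_X_some, dehom_X_some, one_pow, one_mul]
  have h2 : Ideal.span (Set.range (sysW Q)) =
      Ideal.span (Set.range (Function.update (sysW Q) none ((1 - X (some none)) * (1 - X none) ^ x))) := by
    have h3 := cnt_unit (sysW Q) none (C ε) ((1 - X (some none)) * (1 - X none) ^ x) ε hε (by
      rw [sub_self]; exact Ideal.zero_mem _)
    rw [← h1, Function.update_eq_self] at h3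
    exact h3
  -- the sheet b = 1
  obtain ⟨h3, h4⟩ := sheet_b hq hNS
  obtain ⟨h5, h6⟩ := cnt_pow _ none _ h3 x
  -- the sheet z₁ = 1
  set g : Option ι → MvPolynomial (Option (Option ι)) ℂ := fun o => pderiv (some o) P0 with hg
  have h7 : ∀ o : Option ι, ∃ c, sysW Q (some o) = g o + (1 - X (some none)) * c := by
    intro o
    obtain ⟨c, hc⟩ := hdB' (some o)
    refine ⟨C ε * c, ?_⟩
    rw [sysW_some, hQ, pderiv_PP_some, map_add, dehom_rename, map_mul, dehom_C, hc, hg]
    ring
  have h8 : Ideal.span (Set.range (Function.update (sysW Q) none (1 - X (some none)))) =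
      Ideal.span ({X (some none) - rename (Option.map some) 1} ∪ Set.range g) := by
    have e1 : (X (some none) - rename (Option.map some) 1 : MvPolynomial (Option (Option ι)) ℂ) =
        -(1 - X (some none)) := by rw [map_one]; ring
    have m1 : (1 - X (some none) : MvPolynomial (Option (Option ι)) ℂ) ∈
        Ideal.span ({X (some none) - rename (Option.map some) 1} ∪ Set.range g) := by
      have h9 : (X (some none) - rename (Option.map some) 1 : MvPolynomial (Option (Option ι)) ℂ) ∈
        Ideal.span ({X (some none) - rename (Option.map some) 1} ∪ Set.range g) :=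
        Ideal.subset_span (Or.inl rfl)
      rw [e1] at h9
      have h10 := Ideal.neg_mem_iff _ |>.mp h9
      rw [e1]
      exact h10
    have m2 : (1 - X (some none) : MvPolynomial (Option (Option ι)) ℂ) ∈
        Ideal.span (Set.range (Function.update (sysW Q) none (1 - X (some none)))) :=
      Ideal.subset_span ⟨none, Function.update_self ..⟩
    apply le_antisymm
    · rw [Ideal.span_le]
      rintro _ ⟨o, rfl⟩
      rcases o with _ | o
      · rw [Function.update_self]
        exact m1
      · rw [Function.update_of_ne (by simp)]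
        obtain ⟨c, hc⟩ := h7 o
        rw [hc]
        exact Ideal.add_mem _ (Ideal.subset_span (Or.inr ⟨o, rfl⟩)) (Ideal.mul_mem_right _ _ m1)
    · rw [Ideal.span_le]
      rintro _ (h9 | ⟨o, rfl⟩)
      · rw [Set.mem_singleton_iff] at h9
        rw [h9, e1]
        exact Ideal.neg_mem_iff _ |>.mpr m2
      · obtain ⟨c, hc⟩ := h7 o
        have e2 : g o = sysW Q (some o) - (1 - X (some none)) * c := by rw [hc]; ring
        have h9 : sysW Q (some o) ∈
            Ideal.span (Set.range (Function.update (sysW Q) none (1 - X (some none)))) :=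
          Ideal.subset_span ⟨some o, Function.update_of_ne (by simp) ..⟩
        change g o ∈ _
        rw [e2]
        exact Ideal.sub_mem _ h9 (Ideal.mul_mem_right _ _ m2)
  have h11 : (fun o => elimY 1 (g o)) = sysW P := by
    funext o
    rcases o with _ | i
    · change elimY 1 (pderiv (some none) P0) = _
      rw [hP0, ← sw_none, pderiv_sw, elim_sw]
      rfl
    · change elimY 1 (pderiv (some (some i)) P0) = _
      rw [hP0]
      conv_lhs => rw [← sw_some_some i, pderiv_sw, elim_sw]
      rfl
  have h12 : Module.Finite ℂ (MvPolynomial (Option (Option ι)) ℂ ⧸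
      Ideal.span (Set.range (Function.update (sysW Q) none (1 - X (some none))))) := by
    rw [h8]
    refine (cnt_elim_finite 1 g).mpr ?_
    rw [h11]
    exact hfin
  have h13 : Module.finrank ℂ (MvPolynomial (Option (Option ι)) ℂ ⧸
      Ideal.span (Set.range (Function.update (sysW Q) none (1 - X (some none))))) = N := by
    rw [h8, cnt_elim_finrank 1 g, h11]
    exact hlen
  obtain ⟨h14, h15⟩ := cnt_mul (sysW Q) none (1 - X (some none)) ((1 - X none) ^ x) h12 h5
  rw [h2]
  refine ⟨h14, ?_⟩
  rw [h15, h13, h6, h4, Fintype.card_option]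

end step

/-! ### transport -/

section transport

variable {ι κ : Type} [Fintype ι] [DecidableEq ι] [Fintype κ] [DecidableEq κ] {q : ℕ}

/-- the reindexing -/
def oo (e : ι ≃ κ) : Option (Option ι) ≃ Option (Option κ) := e.optionCongr.optionCongr

theorem pderiv_oo (e : ι ≃ κ) (P : MvPolynomial (Option (Option ι)) ℂ) (v : Option (Option ι)) :
    pderiv (oo e v) (rename (oo e) P) = rename (oo e) (pderiv v P) :=
  pderiv_rename (oo e).injective (x := v) (p := P)

theorem eval_oo (e : ι ≃ κ) (P : MvPolynomial (Option (Option ι)) ℂ) (x : Option (Option κ) → ℂ) :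
    eval x (rename (oo e) P) = eval (fun v => x (oo e v)) P := by
  rw [eval_rename]; rfl

theorem zero_oo (e : ι ≃ κ) {x : Option (Option κ) → ℂ} (h : (fun v => x (oo e v)) = 0) : x = 0 := by
  funext v
  have h2 := congrFun h ((oo e).symm v)
  simpa using h2

theorem dehom_oo (e : ι ≃ κ) (F : MvPolynomial (Option (Option ι)) ℂ) :
    dehom (rename (oo e) F) = rename e.optionCongr (dehom F) := by
  have h : (dehom : MvPolynomial (Option (Option κ)) ℂ →ₐ[ℂ] _).comp (rename (oo e)) =
      (rename e.optionCongr).comp dehom := by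
    apply MvPolynomial.algHom_ext
    intro o
    rw [AlgHom.comp_apply, AlgHom.comp_apply, rename_X]
    rcases o with _ | o
    · have : oo e none = none := rfl
      rw [this, dehom_X_none, dehom_X_none, map_one]
    · have : oo e (some o) = some (e.optionCongr o) := rfl
      rw [this, dehom_X_some, dehom_X_some, rename_X]
  exact AlgHom.congr_fun h F

theorem NS_oo (e : ι ≃ κ) {P : MvPolynomial (Option (Option ι)) ℂ} (h : NS q P) : NS q (rename (oo e) P) where
  hom := wh_rename _ h.hom
  n1 := fun p hp => zero_oo e (h.n1 _ fun v => by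
    rw [← eval_oo, ← pderiv_oo]; exact hp _)
  n2 := fun p hp0 hp => zero_oo e (h.n2 _ hp0 fun v hv => by
    rw [← eval_oo, ← pderiv_oo]
    apply hp
    intro h2
    apply hv
    exact (oo e).injective (h2.trans (by rfl : some none = oo e (some none))))
  n3 := fun p hp0 hp => zero_oo e (h.n3 _ hp0 fun v => by
    rw [← eval_oo, ← pderiv_oo]; exact hp _)
  n4 := fun p hp0 hp1 hp => zero_oo e (h.n4 _ hp0 hp1 fun v => by
    rw [← eval_oo, ← pderiv_oo]; exact hp _)

theorem VP_equiv (e : ι ≃ κ) {N : ℕ} (h : VP ι q N) : VP κ q N := by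
  obtain ⟨P, hP, hfin, hlen⟩ := h
  have h1 : ∀ o, sysW (rename (oo e) P) (e.optionCongr o) = rename e.optionCongr (sysW P o) := by
    intro o
    rcases o with _ | i
    · change dehom (pderiv (oo e none) _) = rename _ (dehom _)
      rw [pderiv_oo, dehom_oo]
      rfl
    · change dehom (pderiv (oo e (some (some i))) _) = rename _ (dehom _)
      rw [pderiv_oo, dehom_oo]
      rfl
  have h2 : (Ideal.span (Set.range (sysW P))).map (renameEquiv ℂ e.optionCongr) =
      Ideal.span (Set.range (sysW (rename (oo e) P))) := by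
    rw [Ideal.map_span, ← Set.range_comp]
    congr 1
    have h3 : (⇑(renameEquiv ℂ e.optionCongr) ∘ sysW P) = sysW (rename (oo e) P) ∘ e.optionCongr := by
      funext o
      rw [Function.comp_apply, Function.comp_apply, h1]
      rfl
    rw [h3, e.optionCongr.surjective.range_comp]
  have e1 := Ideal.quotientEquivAlg _ _ (renameEquiv ℂ e.optionCongr) h2.symm
  exact ⟨rename (oo e) P, NS_oo e hP, Module.Finite.equiv e1.toLinearEquiv, by rw [← hlen, e1.toLinearEquiv.finrank_eq]⟩

end transport

/-! ### all values -/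

theorem VP_all {q : ℕ} (hq : 0 < q) (K : ℕ) : ∀ N, N ≤ q ^ (K + 1) → VP (Fin K) q N := by
  induction K with
  | zero =>
    intro N hN
    exact base hq N (by simpa using hN)
  | succ K ih =>
    intro N hN
    have hN' : N ≤ q * q ^ (K + 1) := by rwa [pow_succ, mul_comm] at hN
    obtain ⟨x, N', hx, hN'', rfl⟩ : ∃ x N', x + 1 ≤ q ∧ N' ≤ q ^ (K + 1) ∧ N = N' + x * q ^ (K + 1) := by
      have hpos : 0 < q ^ (K + 1) := Nat.pow_pos hq
      by_cases h : N / q ^ (K + 1) + 1 ≤ q
      · refine ⟨N / q ^ (K + 1), N % q ^ (K + 1), h, (Nat.mod_lt _ hpos).le, ?_⟩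
        rw [mul_comm]; exact (Nat.mod_add_div _ _).symm
      · have h1 : q * q ^ (K + 1) ≤ N := by
          have h2 : q ≤ N / q ^ (K + 1) := by omega
          calc q * q ^ (K + 1) ≤ N / q ^ (K + 1) * q ^ (K + 1) := Nat.mul_le_mul_right _ h2
            _ ≤ N := Nat.div_mul_le_self _ _
        have h3 : N = q * q ^ (K + 1) := le_antisymm hN' h1
        refine ⟨q - 1, q ^ (K + 1), by omega, le_rfl, ?_⟩
        rw [h3]
        obtain ⟨m, rfl⟩ : ∃ m, q = m + 1 := ⟨q - 1, by omega⟩
        rw [Nat.add_sub_cancel]
        ring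
    have h1 := step hq x N' hx (ih N' hN'')
    rw [Fintype.card_fin] at h1
    exact VP_equiv (finSuccEquiv K).symm h1

end

end EY.U0

namespace EY

open MvPolynomial

/-- the forms `P` of the `U0` states, every value `N ≤ q^(K+1)` -/
theorem exists_U0P_h60 {q : ℕ} (hq : 3 ≤ q) (K N : ℕ) (hN : N ≤ q ^ (K + 1)) :
    ∃ P : MvPolynomial (Option (Option (Fin K))) ℂ, U0P (Fin K) q N P := by
  obtain ⟨P, hP, hfin, hlen⟩ := U0.VP_all (q := q) (by omega) K N hN
  refine ⟨P, ?_, hP.n1, hP.n3, ?_, hP.n4, hfin, hlen⟩
  · exact wh_isWeightedHomogeneous hP.hom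
  · intro p hp0 hp1 hp
    refine hP.n2 p hp0 fun v hv => ?_
    rcases v with _ | _ | r
    · exact hp1
    · exact absurd rfl hv
    · exact hp r

end EY
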